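import Mathlib

open Set Filter

namespace Pool.Agent.Lib.MP_d107a2_lc

/-- `I` is an ideal of countable subsets of `S` which contains all finite sets. -/
structure IsCtblIdeal {S : Type} (I : Set (Set S)) : Prop where
  countable : ∀ A ∈ I, A.Countable
  finite : ∀ A : Set S, A.Finite → A ∈ I
  subset : ∀ A ∈ I, ∀ B ⊆ A, B ∈ I
  union : ∀ A ∈ I, ∀ B ∈ I, A ∪ B ∈ I

/-- `I` is a P-ideal of countable subsets of `S`. -/
def IsPIdeal {S : Type} (I : Set (Set S)) : Prop :=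
  IsCtblIdeal I ∧ ∀ X : ℕ → Set S, (∀ n, X n ∈ I) → ∃ Y ∈ I, ∀ n, (X n \ Y).Finite

/-- The P-ideal dichotomy. -/
def PID : Prop :=
  ∀ (S : Type) (I : Set (Set S)), IsPIdeal I →
    (∃ T : Set S, ¬ T.Countable ∧ ∀ A ⊆ T, A.Countable → A ∈ I) ∨
    (∃ P : ℕ → Set S, (⋃ n, P n) = univ ∧ ∀ n, ∀ A ⊆ P n, A.Infinite → A ∉ I)

/-- Eventual dominance. -/
def EvLe (f g : ℕ → ℕ) : Prop := ∀ᶠ n in atTop, f n ≤ g n

/-- The bounding number. -/
noncomputable def bounding : Cardinal.{0} :=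
  sInf {c | ∃ F : Set (ℕ → ℕ), Cardinal.mk F = c ∧ ¬ ∃ g, ∀ f ∈ F, EvLe f g}

/-- `X` has an uncountable biorthogonal system. -/
def HasUncountableBiorthogonal (𝕜 : Type) [RCLike 𝕜] (X : Type*) [NormedAddCommGroup X]
    [NormedSpace 𝕜 X] : Prop :=
  ∃ (I : Type) (x : I → X) (f : I → (X →L[𝕜] 𝕜)), Uncountable I ∧
    (∀ i, f i (x i) = 1) ∧ ∀ i j, i ≠ j → f i (x j) = 0

theorem exists_dominating {ι : Type} (hι : Cardinal.mk ι < bounding) (h : ι → ℕ → ℕ) :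
    ∃ g : ℕ → ℕ, ∀ i, ∀ᶠ n in atTop, h i n ≤ g n := by
  by_contra hcon
  have h1 : bounding ≤ Cardinal.mk (range h) := by
    apply csInf_le'
    refine ⟨range h, rfl, ?_⟩
    rintro ⟨g, hg⟩
    exact hcon ⟨g, fun i => hg (h i) (mem_range_self i)⟩
  have h2 : Cardinal.mk (range h) ≤ Cardinal.mk ι := Cardinal.mk_range_le
  exact absurd hι (not_lt.mpr (h1.trans h2))

end Pool.Agent.Lib.MP_d107a2_lc
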