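import Mathlib
import Pool.Agent.Lib.MP_d107a2_lc.Defs

section

open Set Filter Topology

namespace Pool.Agent.Lib.MP_d107a2_lc

theorem isSeqClosed_inter {Z : Type*} [TopologicalSpace Z] {s t : Set Z} (hs : IsSeqClosed s)
    (ht : IsSeqClosed t) : IsSeqClosed (s ∩ t) := fun _ _ hx hlim =>
  ⟨hs (fun n => (hx n).1) hlim, ht (fun n => (hx n).2) hlim⟩

theorem isSeqClosed_iInter {Z : Type*} [TopologicalSpace Z] {α : Sort*} {s : α → Set Z}
    (hs : ∀ a, IsSeqClosed (s a)) : IsSeqClosed (⋂ a, s a) := fun _ _ hx hlim =>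
  mem_iInter.mpr fun a => hs a (fun n => mem_iInter.mp (hx n) a) hlim

theorem isSeqClosed_union {Z : Type*} [TopologicalSpace Z] {s t : Set Z} (hs : IsSeqClosed s)
    (ht : IsSeqClosed t) : IsSeqClosed (s ∪ t) := by
  intro x p hx hlim
  have h : (∃ᶠ n in atTop, x n ∈ s) ∨ (∃ᶠ n in atTop, x n ∈ t) := by
    rw [← frequently_or_distrib]
    exact (Eventually.of_forall hx).frequently
  rcases h with h | h
  · obtain ⟨φ, hφ, hφ2⟩ := extraction_of_frequently_atTop h
    exact Or.inl (hs hφ2 (hlim.comp hφ.tendsto_atTop))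
  · obtain ⟨φ, hφ, hφ2⟩ := extraction_of_frequently_atTop h
    exact Or.inr (ht hφ2 (hlim.comp hφ.tendsto_atTop))

/-- Decreasing sequences of nonempty sequentially closed sets meet. -/
theorem seqCompact_decreasing {Z : Type*} [TopologicalSpace Z] [SeqCompactSpace Z]
    (c : ℕ → Set Z) (hc : ∀ n, IsSeqClosed (c n)) (hanti : Antitone c)
    (hne : ∀ n, (c n).Nonempty) : (⋂ n, c n).Nonempty := by
  choose p hp using hne
  obtain ⟨a, φ, hφ, hlim⟩ := SeqCompactSpace.tendsto_subseq p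
  refine ⟨a, mem_iInter.mpr fun n => ?_⟩
  have h2 : Tendsto (fun k => p (φ (k + n))) atTop (𝓝 a) :=
    hlim.comp (tendsto_add_atTop_nat n)
  refine hc n (x := fun k => p (φ (k + n))) (fun k => ?_) h2
  apply hanti _ (hp (φ (k + n)))
  calc n ≤ k + n := Nat.le_add_left n k
    _ ≤ φ (k + n) := hφ.id_le _

/-- A Chaber type theorem for sequentially compact spaces. -/
theorem chaber {Z : Type*} [TopologicalSpace Z] [SeqCompactSpace Z] (D : ℕ → Z → Set Z)
    (hD : ∀ m x, IsSeqClosed (D m x)) (hsep : ∀ x y, y ≠ x → ∃ m, y ∈ D m x)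
    (hno : ∀ m, ¬ ∃ x : ℕ → Z, ∀ i k, i < k → x k ∈ D m (x i))
    (F : Set (Set Z)) (hFne : F.Nonempty) (hF : ∀ s ∈ F, IsSeqClosed s)
    (hFn : ∀ s ∈ F, s.Nonempty) (hFi : ∀ s ∈ F, ∀ t ∈ F, s ∩ t ∈ F) : (⋂₀ F).Nonempty := by
  -- a maximal family
  obtain ⟨G, hFG, hG⟩ : ∃ G, F ⊆ G ∧ Maximal (fun G : Set (Set Z) => (∀ s ∈ G, IsSeqClosed s) ∧
      (∀ s ∈ G, s.Nonempty) ∧ (∀ s ∈ G, ∀ t ∈ G, s ∩ t ∈ G)) G := by
    apply zorn_subset_nonempty {G : Set (Set Z) | (∀ s ∈ G, IsSeqClosed s) ∧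
      (∀ s ∈ G, s.Nonempty) ∧ (∀ s ∈ G, ∀ t ∈ G, s ∩ t ∈ G)} _ F ⟨hF, hFn, hFi⟩
    intro c hc hchain _
    refine ⟨⋃₀ c, ⟨?_, ?_, ?_⟩, fun s hs => subset_sUnion_of_mem hs⟩
    · rintro s ⟨g, hg, hs⟩
      exact (hc hg).1 s hs
    · rintro s ⟨g, hg, hs⟩
      exact (hc hg).2.1 s hs
    · rintro s ⟨g, hg, hs⟩ t ⟨g', hg', ht⟩
      rcases hchain.total hg hg' with h | h
      · exact ⟨g', hg', (hc hg').2.2 s (h hs) t ht⟩
      · exact ⟨g, hg, (hc hg).2.2 s hs t (h ht)⟩
  obtain ⟨hGc, hGn, hGi⟩ := hG.prop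
  have hGne : G.Nonempty := hFne.mono hFG
  -- a sequentially closed set meeting all members is a member
  have hmeet : ∀ C : Set Z, IsSeqClosed C → (∀ g ∈ G, (C ∩ g).Nonempty) → C ∈ G := by
    intro C hC hCG
    have hG' : (fun G : Set (Set Z) => (∀ s ∈ G, IsSeqClosed s) ∧
      (∀ s ∈ G, s.Nonempty) ∧ (∀ s ∈ G, ∀ t ∈ G, s ∩ t ∈ G))
        {s | IsSeqClosed s ∧ ∃ g ∈ G, C ∩ g ⊆ s} := by
      refine ⟨fun s hs => hs.1, ?_, ?_⟩
      · rintro s ⟨_, g, hg, hgs⟩
        exact (hCG g hg).mono hgs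
      · rintro s ⟨hs, g, hg, hgs⟩ t ⟨ht, g', hg', hgt⟩
        refine ⟨isSeqClosed_inter hs ht, g ∩ g', hGi g hg g' hg', ?_⟩
        rintro z ⟨h1, h2, h3⟩
        exact ⟨hgs ⟨h1, h2⟩, hgt ⟨h1, h3⟩⟩
    have hle : {s | IsSeqClosed s ∧ ∃ g ∈ G, C ∩ g ⊆ s} ⊆ G := hG.le_of_ge hG' (by
      intro s hs
      exact ⟨hGc s hs, s, hs, inter_subset_right⟩)
    obtain ⟨g, hg⟩ := hGne
    exact hle ⟨hC, g, hg, inter_subset_left⟩
  -- countable intersections
  have hcount : ∀ g : ℕ → Set Z, (∀ n, g n ∈ G) → (⋂ n, g n) ∈ G := by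
    intro g hg
    apply hmeet _ (isSeqClosed_iInter fun n => hGc _ (hg n))
    intro g' hg'
    -- partial intersections
    have hpart : ∀ n, g' ∩ (⋂ i ∈ Finset.range n, g i) ∈ G := by
      intro n
      induction n with
      | zero => simpa using hg'
      | succ n ih =>
        have := hGi _ ih _ (hg n)
        have e : g' ∩ (⋂ i ∈ Finset.range (n + 1), g i)
            = (g' ∩ ⋂ i ∈ Finset.range n, g i) ∩ g n := by
          ext z
          simp only [Finset.mem_range, mem_inter_iff, mem_iInter]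
          constructor
          · rintro ⟨h1, h2⟩
            exact ⟨⟨h1, fun i hi => h2 i (by omega)⟩, h2 n (by omega)⟩
          · rintro ⟨⟨h1, h2⟩, h3⟩
            refine ⟨h1, fun i hi => ?_⟩
            rcases Nat.lt_succ_iff_lt_or_eq.mp hi with h | h
            · exact h2 i h
            · rw [h]; exact h3
        rw [e]; exact this
    obtain ⟨z, hz⟩ := seqCompact_decreasing (fun n => g' ∩ (⋂ i ∈ Finset.range n, g i))
      (fun n => hGc _ (hpart n)) (by
        intro a b hab z hz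
        refine ⟨hz.1, ?_⟩
        simp only [Finset.mem_range, mem_iInter]
        intro i hi
        have := hz.2
        simp only [Finset.mem_range, mem_iInter] at this
        exact this i (by omega)) (fun n => hGn _ (hpart n))
    rw [mem_iInter] at hz
    refine ⟨z, mem_iInter.mpr fun n => ?_, (hz 0).1⟩
    have := (hz (n + 1)).2
    simp only [Finset.mem_range, mem_iInter] at this
    exact this n (by omega)
  -- points whose discarded set is not a member
  have hH : ∀ m, ∃ A ∈ G, ∀ x ∈ A, D m x ∉ G := by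
    intro m
    by_contra hcon
    push Not at hcon
    apply hno m
    -- build the sequence
    obtain ⟨g0, hg0⟩ := hGne
    obtain ⟨z0, _⟩ := hGn g0 hg0
    have : Nonempty Z := ⟨z0⟩
    choose! pick hpick using hcon
    -- state: a member of G
    let step : {A : Set Z // A ∈ G} → {A : Set Z // A ∈ G} := fun A =>
      ⟨A.1 ∩ D m (pick A.1), hGi _ A.2 _ (hpick A.1 A.2).2⟩
    let A : ℕ → {A : Set Z // A ∈ G} := fun n => step^[n] ⟨g0, hg0⟩
    have hA : ∀ n, (A (n + 1)).1 = (A n).1 ∩ D m (pick (A n).1) := by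
      intro n
      simp only [A, Function.iterate_succ_apply']
      rfl
    have hanti : Antitone (fun n => (A n).1) := by
      apply antitone_nat_of_succ_le
      intro n
      rw [hA]
      exact inter_subset_left
    refine ⟨fun n => pick (A n).1, fun i k hik => ?_⟩
    have h1 : pick (A k).1 ∈ (A k).1 := (hpick (A k).1 (A k).2).1
    have h2 : (A k).1 ⊆ (A (i + 1)).1 := hanti hik
    have h3 := h2 h1
    rw [hA] at h3
    exact h3.2
  choose A hAG hA using hH
  obtain ⟨y, hy⟩ := hGn _ (hcount A hAG)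
  have hy' : ∀ m, D m y ∉ G := fun m => hA m y (mem_iInter.mp hy m)
  have hB : ∀ m, ∃ g ∈ G, ¬ (D m y ∩ g).Nonempty := by
    intro m
    by_contra hcon
    push Not at hcon
    exact hy' m (hmeet _ (hD m y) hcon)
  choose B hBG hB using hB
  have hBI : (⋂ m, B m) ∈ G := hcount B hBG
  refine ⟨y, fun s hs => ?_⟩
  obtain ⟨z, hz1, hz2⟩ := hGn _ (hGi _ hBI _ (hFG hs))
  have hzy : z = y := by
    by_contra hne
    obtain ⟨m, hm⟩ := hsep y z hne
    exact hB m ⟨z, hm, mem_iInter.mp hz1 m⟩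
  rw [← hzy]; exact hz2

end Pool.Agent.Lib.MP_d107a2_lc
end

section

open Set Filter

namespace Pool.Agent.Lib.MP_d107a2_lc

theorem free_set_aux {T : Type*} (n : ℕ) :
    ∀ (F : T → Finset T) (A : Set T), ¬ A.Countable → (∀ a ∈ A, (F a).card ≤ n) →
      (∀ a ∈ A, a ∉ F a) →
      ∃ B ⊆ A, ¬ B.Countable ∧ ∀ a ∈ B, ∀ b ∈ B, b ∉ F a := by
  classical
  induction n with
  | zero =>
    intro F A hA hc _
    refine ⟨A, Subset.rfl, hA, ?_⟩
    intro a ha b _
    have := hc a ha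
    have h0 : F a = ∅ := Finset.card_eq_zero.mp (Nat.le_zero.mp this)
    simp [h0]
  | succ n ih =>
    intro F A hA hc hself
    obtain ⟨M, hM⟩ : ∃ M, Maximal (fun M : Set T => M ⊆ A ∧ ∀ a ∈ M, ∀ b ∈ M, b ∉ F a) M := by
      apply zorn_subset
      intro c hc1 hchain
      refine ⟨⋃₀ c, ⟨sUnion_subset fun s hs => (hc1 hs).1, ?_⟩, fun s hs => subset_sUnion_of_mem hs⟩
      rintro a ⟨s, hs, has⟩ b ⟨t, ht, hbt⟩
      rcases hchain.total hs ht with h | h
      · exact (hc1 ht).2 a (h has) b hbt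
      · exact (hc1 hs).2 a has b (h hbt)
    by_cases hMc : M.Countable
    · -- pass to the rest
      let B : Set T := A \ (M ∪ ⋃ a ∈ M, (↑(F a) : Set T))
      have hcount : (M ∪ ⋃ a ∈ M, (↑(F a) : Set T)).Countable := by
        apply hMc.union
        exact hMc.biUnion fun a _ => (F a).countable_toSet
      have hB : ¬ B.Countable := by
        intro hB
        apply hA
        exact (hB.union hcount).mono (by intro x hx; by_cases hx' : x ∈ (M ∪ ⋃ a ∈ M, (↑(F a) : Set T)); exact Or.inr hx'; exact Or.inl ⟨hx, hx'⟩)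
      have hmeet : ∀ a ∈ B, ∃ b ∈ M, b ∈ F a := by
        intro a ha
        by_contra hcon
        push Not at hcon
        have haM : a ∉ M := fun h => ha.2 (Or.inl h)
        have hins : (insert a M ⊆ A ∧ ∀ x ∈ insert a M, ∀ b ∈ insert a M, b ∉ F x) := by
          refine ⟨insert_subset ha.1 hM.prop.1, ?_⟩
          rintro x (rfl | hx) b (rfl | hb)
          · exact hself _ ha.1
          · exact hcon b hb
          · intro hbx
            exact ha.2 (Or.inr (mem_biUnion hx hbx))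
          · exact hM.prop.2 x hx b hb
        exact haM (hM.le_of_ge hins (subset_insert a M) (mem_insert a M))
      obtain ⟨B', hB'B, hB'c, hfree⟩ := ih (fun a => (F a).filter (fun b => b ∉ M)) B hB
        (by
          intro a ha
          obtain ⟨b, hbM, hbF⟩ := hmeet a ha
          have hlt : ((F a).filter (fun b => b ∉ M)).card < (F a).card := by
            apply Finset.card_lt_card
            rw [Finset.filter_ssubset]
            exact ⟨b, hbF, by simpa using hbM⟩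
          have := hc a ha.1
          omega)
        (by
          intro a ha h
          exact hself a ha.1 (Finset.mem_filter.mp h).1)
      refine ⟨B', hB'B.trans sdiff_subset, hB'c, ?_⟩
      intro a ha b hb hba
      apply hfree a ha b hb
      rw [Finset.mem_filter]
      exact ⟨hba, fun hbM => (hB'B hb).2 (Or.inl hbM)⟩
    · exact ⟨M, hM.prop.1, hMc, hM.prop.2⟩

/-- A set mapping with finite values on an uncountable set has an uncountable free set. -/
theorem exists_free_set {T : Type*} (F : T → Finset T) (A : Set T) (hA : ¬ A.Countable) :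
    ∃ B ⊆ A, ¬ B.Countable ∧ ∀ a ∈ B, ∀ b ∈ B, b ≠ a → b ∉ F a := by
  classical
  obtain ⟨n, hn⟩ : ∃ n : ℕ, ¬ ({a ∈ A | (F a).card ≤ n}).Countable := by
    by_contra hcon
    push Not at hcon
    apply hA
    refine (countable_iUnion hcon).mono ?_
    intro a ha
    exact mem_iUnion.mpr ⟨(F a).card, ha, le_rfl⟩
  obtain ⟨B, hBA, hBc, hfree⟩ := free_set_aux n (fun a => (F a).erase a) {a ∈ A | (F a).card ≤ n} hn
    (fun a ha => (Finset.card_erase_le).trans ha.2) (fun a _ => by simp)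
  refine ⟨B, hBA.trans (sep_subset _ _), hBc, ?_⟩
  intro a ha b hb hne hba
  exact hfree a ha b hb (Finset.mem_erase.mpr ⟨hne, hba⟩)

end Pool.Agent.Lib.MP_d107a2_lc
end

section

open Set Filter
open scoped ENNReal lp

namespace Pool.Agent.Lib.MP_d107a2_lc

section

variable {𝕜 : Type} [RCLike 𝕜] {J : Type*} {W : Type*} [NormedAddCommGroup W]
  [NormedSpace 𝕜 W]

theorem l1_summable (a : lp (fun _ : J => 𝕜) 1) : Summable (fun j => ‖a j‖) := by
  have h := lp.memℓp a
  rw [memℓp_gen_iff (by simp)] at h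
  simpa using h

theorem l1_norm (a : lp (fun _ : J => 𝕜) 1) : ‖a‖ = ∑' j, ‖a j‖ := by
  rw [lp.norm_eq_tsum_rpow (by simp)]
  simp

theorem l1_summable_smul (w : J → W) (C : ℝ) (hC : ∀ j, ‖w j‖ ≤ C)
    (a : lp (fun _ : J => 𝕜) 1) : Summable (fun j => ‖a j • w j‖) := by
  apply Summable.of_nonneg_of_le (fun j => norm_nonneg _) (fun j => ?_)
    ((l1_summable a).mul_right C)
  rw [norm_smul]
  exact mul_le_mul_of_nonneg_left (hC j) (norm_nonneg _)

variable [CompleteSpace W]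

/-- The canonical operator from the space of summable families. -/
noncomputable def l1Lift (w : J → W) (C : ℝ) (hC : ∀ j, ‖w j‖ ≤ C) :
    lp (fun _ : J => 𝕜) 1 →L[𝕜] W :=
  LinearMap.mkContinuous
    { toFun := fun a => ∑' j, a j • w j
      map_add' := by
        intro a b
        rw [← (l1_summable_smul w C hC a).of_norm.tsum_add (l1_summable_smul w C hC b).of_norm]
        simp [add_smul]
      map_smul' := by
        intro c a
        simp only [RingHom.id_apply]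
        rw [← (l1_summable_smul w C hC a).of_norm.tsum_const_smul]
        simp [mul_smul] } C (by
    intro a
    simp only [LinearMap.coe_mk, AddHom.coe_mk]
    calc ‖∑' j, a j • w j‖ ≤ ∑' j, ‖a j • w j‖ := norm_tsum_le_tsum_norm (l1_summable_smul w C hC a)
      _ ≤ ∑' j, ‖a j‖ * C := by
        apply Summable.tsum_le_tsum _ (l1_summable_smul w C hC a) ((l1_summable a).mul_right C)
        intro j
        rw [norm_smul]
        exact mul_le_mul_of_nonneg_left (hC j) (norm_nonneg _)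
      _ = C * ‖a‖ := by rw [tsum_mul_right, l1_norm, mul_comm])

theorem l1Lift_apply (w : J → W) (C : ℝ) (hC : ∀ j, ‖w j‖ ≤ C) (a : lp (fun _ : J => 𝕜) 1) :
    l1Lift w C hC a = ∑' j, a j • w j := rfl

theorem l1Lift_norm_le (w : J → W) (C : ℝ) (hC : ∀ j, ‖w j‖ ≤ C) (h0 : 0 ≤ C) :
    ‖l1Lift (𝕜 := 𝕜) w C hC‖ ≤ C :=
  LinearMap.mkContinuous_norm_le _ h0 _

theorem map_l1Lift (g : W →L[𝕜] 𝕜) (w : J → W) (C : ℝ) (hC : ∀ j, ‖w j‖ ≤ C)
    (a : lp (fun _ : J => 𝕜) 1) :
    HasSum (fun j => a j * g (w j)) (g (l1Lift w C hC a)) := by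
  have h := (l1_summable_smul w C hC a).of_norm.hasSum
  have h2 := g.hasSum h
  rw [← l1Lift_apply w C hC a] at h2
  simpa using h2

theorem eval_l1Lift (w : J → lp (fun _ : J => 𝕜) 1) (C : ℝ) (hC : ∀ j, ‖w j‖ ≤ C)
    (a : lp (fun _ : J => 𝕜) 1) (k : J) :
    HasSum (fun j => a j * w j k) (l1Lift w C hC a k) :=
  map_l1Lift (lp.evalCLM 𝕜 (fun _ : J => 𝕜) 1 k) w C hC a

theorem hasSum_diag [DecidableEq J] (a : J → 𝕜) (k : J) :
    HasSum (fun j => a j * (if k = j then 1 else 0 : 𝕜)) (a k) := by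
  have h := hasSum_ite_eq k (a k)
  have e : (fun j => a j * (if k = j then 1 else 0 : 𝕜)) = fun j => if j = k then a k else 0 := by
    funext j
    by_cases h : j = k
    · subst h; simp
    · simp [h, Ne.symm h]
  rw [e]; exact h

end

section

variable {𝕜 : Type} [RCLike 𝕜] {J : Type*} {X : Type*} [NormedAddCommGroup X]
  [NormedSpace 𝕜 X] [CompleteSpace X]

theorem exists_inverse (N : lp (fun _ : J => 𝕜) 1 →L[𝕜] lp (fun _ : J => 𝕜) 1) (hN : ‖N‖ < 1)
    (b : lp (fun _ : J => 𝕜) 1) : ∃ a : lp (fun _ : J => 𝕜) 1, a + N a = b := by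
  have hN' : ‖-N‖ < 1 := by rwa [norm_neg]
  let G := Units.oneSub (-N) hN'
  refine ⟨(↑G⁻¹ : lp (fun _ : J => 𝕜) 1 →L[𝕜] lp (fun _ : J => 𝕜) 1) b, ?_⟩
  have h1 : ((G : lp (fun _ : J => 𝕜) 1 →L[𝕜] lp (fun _ : J => 𝕜) 1) *
      (↑G⁻¹ : lp (fun _ : J => 𝕜) 1 →L[𝕜] lp (fun _ : J => 𝕜) 1)) b = b := by
    rw [Units.mul_inv]; rfl
  have h2 : (G : lp (fun _ : J => 𝕜) 1 →L[𝕜] lp (fun _ : J => 𝕜) 1) = 1 - (-N) := rfl
  rw [h2, sub_neg_eq_add, add_mul, one_mul] at h1
  exact h1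

/-- A bounded almost biorthogonal family can be corrected to a biorthogonal one. -/
theorem exists_biorthogonal_of_almost [DecidableEq J] (y : J → X) (f : J → (X →L[𝕜] 𝕜)) (C : ℝ)
    (hC : ∀ j, ‖y j‖ ≤ C) (hdiag : ∀ j, f j (y j) = 1)
    (hsum : ∀ j, ∑' k : J, ‖(if k = j then 0 else f k (y j) : 𝕜)‖ₑ ≤ 1 / 2) :
    ∃ z : J → X, (∀ i, f i (z i) = 1) ∧ ∀ i j, i ≠ j → f i (z j) = 0 := by
  -- the off-diagonal columns
  have htop : ∀ j, ∑' k : J, ‖(if k = j then 0 else f k (y j) : 𝕜)‖ₑ ≠ ⊤ := fun j =>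
    ne_top_of_le_ne_top (by simp) (hsum j)
  have hs : ∀ j, Summable (fun k : J => ‖(if k = j then 0 else f k (y j) : 𝕜)‖) := by
    intro j
    have := ENNReal.summable_toReal (htop j)
    simpa using this
  have hmem : ∀ j, Memℓp (fun k : J => (if k = j then 0 else f k (y j) : 𝕜)) 1 := by
    intro j
    rw [memℓp_gen_iff (by simp)]
    simpa using hs j
  obtain ⟨n, hnk⟩ : ∃ n : J → lp (fun _ : J => 𝕜) 1,
      ∀ j k, n j k = (if k = j then 0 else f k (y j) : 𝕜) := ⟨fun j => ⟨_, hmem j⟩, fun _ _ => rfl⟩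
  have hn : ∀ j, ‖n j‖ ≤ 1 / 2 := by
    intro j
    rw [l1_norm]
    simp only [hnk]
    have h2 : (∑' k : J, ‖(if k = j then 0 else f k (y j) : 𝕜)‖ₑ).toReal
        = ∑' k : J, ‖(if k = j then 0 else f k (y j) : 𝕜)‖ := by
      rw [ENNReal.tsum_toReal_eq]
      · simp
      · intro a; simp
    have h3 : (∑' k : J, ‖(if k = j then 0 else f k (y j) : 𝕜)‖ₑ).toReal ≤ 1 / 2 := by
      have := ENNReal.toReal_mono (by simp) (hsum j)
      simpa using this
    rw [h2] at h3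
    exact h3
  have hN : ‖(l1Lift n (1 / 2) hn : lp (fun _ : J => 𝕜) 1 →L[𝕜] lp (fun _ : J => 𝕜) 1)‖ < 1 :=
    lt_of_le_of_lt (l1Lift_norm_le n (1 / 2) hn (by norm_num)) (by norm_num)
  -- evaluation of `f k` on the image
  have key : ∀ (k : J) (a : lp (fun _ : J => 𝕜) 1),
      f k (l1Lift y C hC a) = (a + l1Lift n (1 / 2) hn a) k := by
    intro k a
    have e1 := map_l1Lift (f k) y C hC a
    have e2 := eval_l1Lift n (1 / 2) hn a k
    have e3 := hasSum_diag (fun j => a j) k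
    have e4 := e3.add e2
    have e5 : (fun j => a j * (if k = j then 1 else 0 : 𝕜) + a j * (n j k)) =
        fun j => a j * f k (y j) := by
      funext j
      rw [hnk]
      by_cases h : k = j
      · subst h; simp [hdiag]
      · simp [h]
    rw [e5] at e4
    exact e1.unique e4
  have hc : ∀ j : J, ∃ a : lp (fun _ : J => 𝕜) 1, a + l1Lift n (1 / 2) hn a = lp.single 1 j (1 : 𝕜) :=
    fun j => exists_inverse _ hN _
  choose c hc using hc
  refine ⟨fun j => l1Lift y C hC (c j), ?_, ?_⟩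
  · intro i
    rw [key, hc]
    simp
  · intro i j hij
    rw [key, hc]
    exact lp.single_apply_ne _ _ _ hij

end

end Pool.Agent.Lib.MP_d107a2_lc
end

section

open Set Filter Topology
open scoped ENNReal

namespace Pool.Agent.Lib.MP_d107a2_lc

/-- The ideal of countable sets on which each weight is summable. -/
def sumIdeal {S ι : Type} (w : S → ι → ℝ≥0∞) : Set (Set S) :=
  {A | A.Countable ∧ ∀ i, ∑' a : A, w a i ≠ ⊤}

theorem tsum_ne_top_of_finite {S : Type*} (f : S → ℝ≥0∞) (hf : ∀ s, f s ≠ ⊤) (A : Set S)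
    (hA : A.Finite) : ∑' a : A, f a ≠ ⊤ := by
  have := hA.fintype
  rw [tsum_fintype]
  exact ENNReal.sum_ne_top.mpr fun a _ => hf a

/-- Partial tails: for each `j` the sum over the elements of `A` with code at least `j`. -/
theorem exists_tail_le {S : Type*} (f : S → ℝ≥0∞) (A : Set S) (e : S → ℕ)
    (hsum : ∑' a : A, f a ≠ ⊤) (ε : ℝ≥0∞) (hε : 0 < ε) :
    ∃ j : ℕ, ∀ k, j ≤ k → ∑' a : ({a ∈ A | k ≤ e a} : Set S), f a ≤ ε := by
  have h := ENNReal.tendsto_tsum_compl_atTop_zero hsum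
  obtain ⟨F, hF⟩ := (h.eventually (ge_mem_nhds hε)).exists
  refine ⟨F.sup (fun a => e a) + 1, fun k hk => ?_⟩
  refine le_trans ?_ hF
  let g : ({a ∈ A | k ≤ e a} : Set S) → {a : A // a ∉ F} := fun a =>
    ⟨⟨a.1, a.2.1⟩, by
      intro hmem
      have h1 : e a.1 ≤ F.sup (fun a : A => e a) :=
        Finset.le_sup (f := fun a : A => e a) hmem
      have h2 : k ≤ e a.1 := a.2.2
      omega⟩
  have hg : Function.Injective g := by
    intro a b hab
    apply Subtype.ext
    exact congrArg (fun z : {a : A // a ∉ F} => z.1.1) hab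
  exact ENNReal.tsum_comp_le_tsum_of_injective hg (fun z : {a : A // a ∉ F} => f z.1.1)

theorem sumIdeal_isPIdeal {S ι : Type} (hι : Cardinal.mk ι < bounding) (w : S → ι → ℝ≥0∞)
    (hw : ∀ s i, w s i ≠ ⊤) : IsPIdeal (sumIdeal w) := by
  refine ⟨⟨fun A hA => hA.1, fun A hA => ⟨hA.countable, fun i => ?_⟩, fun A hA B hBA =>
    ⟨hA.1.mono hBA, fun i => ?_⟩, fun A hA B hB => ⟨hA.1.union hB.1, fun i => ?_⟩⟩, ?_⟩
  · exact tsum_ne_top_of_finite (fun s => w s i) (fun s => hw s i) A hA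
  · exact ne_top_of_le_ne_top (hA.2 i) (ENNReal.tsum_mono_subtype (fun s => w s i) hBA)
  · refine ne_top_of_le_ne_top ?_ (ENNReal.tsum_union_le (fun s => w s i) A B)
    exact ENNReal.add_ne_top.mpr ⟨hA.2 i, hB.2 i⟩
  · intro A hA
    have he : ∀ n, ∃ e : S → ℕ, InjOn e (A n) := fun n => countable_iff_exists_injOn.mp (hA n).1
    choose e he using he
    have hh : ∀ (i : ι) (n : ℕ), ∃ j : ℕ, ∀ k, j ≤ k →
        ∑' a : ({a ∈ A n | k ≤ e n a} : Set S), w a i ≤ (1 / 2) ^ n := by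
      intro i n
      exact exists_tail_le (fun s => w s i) (A n) (e n) ((hA n).2 i) _
        (ENNReal.pow_pos (by simp) n)
    choose h hh using hh
    obtain ⟨g, hg⟩ := exists_dominating hι h
    let B : ℕ → Set S := fun n => {a ∈ A n | g n ≤ e n a}
    have hBA : ∀ n, B n ⊆ A n := fun n a ha => ha.1
    refine ⟨⋃ n, B n, ⟨countable_iUnion fun n => (hA n).1.mono (hBA n), fun i => ?_⟩, fun n => ?_⟩
    · refine ne_top_of_le_ne_top ?_ (ENNReal.tsum_iUnion_le_tsum (fun s => w s i) B)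
      obtain ⟨N, hN⟩ := eventually_atTop.mp (hg i)
      have hle : ∀ n, ∑' x : B n, w x i ≤
          (if n < N then ∑' x : B n, w x i else 0) + (1 / 2 : ℝ≥0∞) ^ n := by
        intro n
        by_cases hn : n < N
        · simp [hn]
        · simp only [hn, if_false, zero_add]
          exact hh i n (g n) (hN n (not_lt.mp hn))
      refine ne_top_of_le_ne_top ?_ (ENNReal.tsum_le_tsum hle)
      rw [ENNReal.tsum_add]
      apply ENNReal.add_ne_top.mpr
      constructor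
      · rw [tsum_eq_sum (s := Finset.range N)]
        · apply ENNReal.sum_ne_top.mpr
          intro n hn
          rw [if_pos (Finset.mem_range.mp hn)]
          exact ne_top_of_le_ne_top ((hA n).2 i) (ENNReal.tsum_mono_subtype (fun s => w s i) (hBA n))
        · intro n hn
          rw [if_neg (by simpa using hn)]
      · rw [ENNReal.tsum_geometric]
        simp
    · -- finiteness
      have hsub : A n \ (⋃ n, B n) ⊆ {a ∈ A n | e n a < g n} := by
        rintro a ⟨ha, hna⟩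
        refine ⟨ha, ?_⟩
        by_contra hcon
        exact hna (mem_iUnion.mpr ⟨n, ha, not_lt.mp hcon⟩)
      refine Finite.subset ?_ hsub
      apply Finite.of_finite_image (f := e n)
      · apply (finite_lt_nat (g n)).subset
        rintro _ ⟨a, ha, rfl⟩
        exact ha.2
      · exact (he n).mono (fun a ha => ha.1)

end Pool.Agent.Lib.MP_d107a2_lc
end

section

open Set Filter Topology
open scoped ENNReal

namespace Pool.Agent.Lib.MP_d107a2_lc

theorem no_null_seq {S ι : Type} (hι : Cardinal.mk ι < bounding) (w : S → ι → ℝ≥0∞)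
    (hw : ∀ s i, w s i ≠ ⊤) (hpos : ∀ s, ∃ i, w s i ≠ 0) (P : Set S)
    (hP : ∀ A ⊆ P, A.Infinite → A ∉ sumIdeal w) (s : ℕ → S) (hs : ∀ k, s k ∈ P)
    (hlim : ∀ i, Tendsto (fun k => w (s k) i) atTop (𝓝 0)) : False := by
  have hh : ∀ (i : ι) (n : ℕ), ∃ K : ℕ, ∀ k, K ≤ k → w (s k) i ≤ (1 / 2) ^ n := by
    intro i n
    have h1 : (0 : ℝ≥0∞) < (1 / 2) ^ n := ENNReal.pow_pos (by simp) n
    exact eventually_atTop.mp ((hlim i).eventually (ge_mem_nhds h1))
  choose h hh using hh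
  obtain ⟨g, hg⟩ := exists_dominating hι h
  have hev : ∀ i, ∀ᶠ j in atTop, w (s (g j)) i ≤ (1 / 2) ^ j := by
    intro i
    filter_upwards [hg i] with j hj
    exact hh i j (g j) hj
  let B : Set S := range (fun j => s (g j))
  have hBP : B ⊆ P := by
    rintro _ ⟨j, rfl⟩
    exact hs _
  have hinf : B.Infinite := by
    intro hfin
    -- some value is taken infinitely often
    have hpig : ∃ φ ∈ B, ∃ᶠ j in atTop, s (g j) = φ := by
      by_contra hcon
      push Not at hcon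
      have hev2 : ∀ φ ∈ B, ∀ᶠ j in atTop, s (g j) ≠ φ := fun φ hφ => by
        simpa [Filter.Frequently] using hcon φ hφ
      have hall : ∀ᶠ j in atTop, ∀ φ ∈ B, s (g j) ≠ φ := (eventually_all_finite hfin).mpr hev2
      obtain ⟨j, hj⟩ := hall.exists
      exact hj (s (g j)) ⟨j, rfl⟩ rfl
    obtain ⟨φ, _, hφ⟩ := hpig
    obtain ⟨i, hi⟩ := hpos φ
    apply hi
    have hle : ∃ᶠ j in atTop, w φ i ≤ (1 / 2) ^ j := by
      apply (hφ.and_eventually (hev i)).mono
      rintro j ⟨h1, h2⟩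
      rwa [h1] at h2
    have hz : Tendsto (fun j : ℕ => (1 / 2 : ℝ≥0∞) ^ j) atTop (𝓝 0) :=
      ENNReal.tendsto_pow_atTop_nhds_zero_of_lt_one (by simp)
    by_contra hne
    have hlt := hz.eventually (gt_mem_nhds (pos_iff_ne_zero.mpr hne))
    obtain ⟨j, h1, h2⟩ := (hle.and_eventually hlt).exists
    exact absurd h2 (not_lt.mpr h1)
  apply hP B hBP hinf
  refine ⟨countable_range _, fun i => ?_⟩
  have h1 : ∑' a : B, w a i ≤ ∑' j : ℕ, w (s (g j)) i := by
    have hsurj : Function.Surjective (fun j : ℕ => (⟨s (g j), j, rfl⟩ : B)) := by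
      rintro ⟨_, j, rfl⟩
      exact ⟨j, rfl⟩
    exact ENNReal.tsum_le_tsum_comp_of_surjective hsurj (fun a : B => w a i)
  refine ne_top_of_le_ne_top ?_ h1
  obtain ⟨N, hN⟩ := eventually_atTop.mp (hev i)
  have hle : ∀ j, w (s (g j)) i ≤ (if j < N then w (s (g j)) i else 0) + (1 / 2 : ℝ≥0∞) ^ j := by
    intro j
    by_cases hj : j < N
    · simp [hj]
    · simp only [hj, if_false, zero_add]
      exact hN j (not_lt.mp hj)
  refine ne_top_of_le_ne_top ?_ (ENNReal.tsum_le_tsum hle)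
  rw [ENNReal.tsum_add]
  apply ENNReal.add_ne_top.mpr
  constructor
  · rw [tsum_eq_sum (s := Finset.range N)]
    · apply ENNReal.sum_ne_top.mpr
      intro n hn
      rw [if_pos (Finset.mem_range.mp hn)]
      exact hw _ _
    · intro n hn
      rw [if_neg (by simpa using hn)]
  · rw [ENNReal.tsum_geometric]
    simp

variable {𝕜 : Type} [RCLike 𝕜]

theorem diag_seq {ι : Type} (hι : Cardinal.mk ι < bounding) (s : ℕ → ℕ → ι → 𝕜)
    (r : ℕ → ι → 𝕜) (hs : ∀ k, Tendsto (s k) atTop (𝓝 (r k))) :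
    ∃ h : ℕ → ℕ, Tendsto (fun k => s k (h k) - r k) atTop (𝓝 0) := by
  have hh : ∀ (i : ι) (k : ℕ), ∃ J : ℕ, ∀ j, J ≤ j → ‖s k j i - r k i‖ < 1 / ((k : ℝ) + 1) := by
    intro i k
    have h1 : Tendsto (fun j => s k j i) atTop (𝓝 (r k i)) := (tendsto_pi_nhds.mp (hs k)) i
    have h2 : (0 : ℝ) < 1 / ((k : ℝ) + 1) := by positivity
    obtain ⟨J, hJ⟩ := Metric.tendsto_atTop.mp h1 _ h2
    refine ⟨J, fun j hj => ?_⟩
    rw [← dist_eq_norm]
    exact hJ j hj
  choose h hh using hh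
  obtain ⟨g, hg⟩ := exists_dominating hι h
  refine ⟨g, ?_⟩
  rw [tendsto_pi_nhds]
  intro i
  simp only [Pi.sub_apply, Pi.zero_apply]
  apply squeeze_zero_norm' (a := fun k : ℕ => 1 / ((k : ℝ) + 1))
  · filter_upwards [hg i] with k hk
    exact (hh i k (g k) hk).le
  · exact tendsto_one_div_add_atTop_nhds_zero_nat

theorem isSeqClosed_seqClosure {ι : Type} (hι : Cardinal.mk ι < bounding) (A : Set (ι → 𝕜)) :
    IsSeqClosed (seqClosure A) := by
  intro r φ hr hφ
  choose s hsA hs using hr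
  obtain ⟨h, hh⟩ := diag_seq hι s r hs
  refine ⟨fun k => s k (h k), fun k => hsA k _, ?_⟩
  have := hh.add hφ
  simpa using this

/-- The consequence of the second alternative that we use. -/
theorem second_alt {ι : Type} (hι : Cardinal.mk ι < bounding) (L : Set (ι → 𝕜))
    (P : ℕ → Set {φ : ι → 𝕜 // φ ∈ L ∧ φ ≠ 0}) (hcover : (⋃ n, P n) = univ)
    (hP : ∀ n, ∀ A ⊆ P n, A.Infinite →
      A ∉ sumIdeal (fun (φ : {φ : ι → 𝕜 // φ ∈ L ∧ φ ≠ 0}) (i : ι) => ‖φ.1 i‖ₑ)) :
    ∃ R : ℕ → Set (ι → 𝕜), (∀ m, IsSeqClosed (R m)) ∧ (∀ m, (0 : ι → 𝕜) ∉ R m) ∧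
      ∀ φ ∈ L, φ ≠ 0 → ∃ m, φ ∈ R m := by
  refine ⟨fun m => seqClosure (Subtype.val '' (P m)), fun m => isSeqClosed_seqClosure hι _, ?_, ?_⟩
  · rintro m ⟨s, hs, hlim⟩
    choose t ht hts using hs
    apply no_null_seq hι (fun (φ : {φ : ι → 𝕜 // φ ∈ L ∧ φ ≠ 0}) (i : ι) => ‖φ.1 i‖ₑ)
      (fun _ _ => by simp) _ (P m) (hP m) t ht
    · intro i
      simp only [hts]
      have h1 := (tendsto_pi_nhds.mp hlim) i
      have h2 := (continuous_enorm.tendsto _).comp h1
      simpa [Function.comp_def] using h2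
    · rintro ⟨φ, h1, h2⟩
      by_contra hcon
      push Not at hcon
      apply h2
      funext i
      simpa using hcon i
  · intro φ hφ hne
    have : (⟨φ, hφ, hne⟩ : {φ : ι → 𝕜 // φ ∈ L ∧ φ ≠ 0}) ∈ ⋃ n, P n := by
      rw [hcover]; trivial
    obtain ⟨m, hm⟩ := mem_iUnion.mp this
    exact ⟨m, subset_seqClosure ⟨_, hm, rfl⟩⟩

end Pool.Agent.Lib.MP_d107a2_lc
end

section

open Set Filter Topology
open scoped ENNReal

namespace Pool.Agent.Lib.MP_d107a2_lc

theorem tsum_ne_top_of_countable {α : Type*} (f : α → ℝ≥0∞)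
    (h : ∀ A : Set α, A.Countable → ∑' a : A, f a ≠ ⊤) : ∑' a, f a ≠ ⊤ := by
  intro htop
  have h1 : ∀ n : ℕ, ∃ s : Finset α, (n : ℝ≥0∞) ≤ ∑ a ∈ s, f a := by
    intro n
    by_contra hcon
    push Not at hcon
    have : ∑' a, f a ≤ n := by
      rw [ENNReal.tsum_eq_iSup_sum]
      exact iSup_le fun s => (hcon s).le
    rw [htop] at this
    exact absurd this (by simp)
  choose s hs using h1
  let A : Set α := ⋃ n, (↑(s n) : Set α)
  have hA : A.Countable := countable_iUnion fun n => (s n).countable_toSet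
  apply h A hA
  apply ENNReal.eq_top_of_forall_nnreal_le
  intro r
  obtain ⟨n, hn⟩ := exists_nat_ge r
  have h2 : ∑ a ∈ s n, f a ≤ ∑' a : A, f a := by
    rw [tsum_subtype]
    calc ∑ a ∈ s n, f a = ∑ a ∈ s n, A.indicator f a := by
          apply Finset.sum_congr rfl
          intro a ha
          rw [indicator_of_mem]
          exact mem_iUnion.mpr ⟨n, ha⟩
      _ ≤ ∑' a, A.indicator f a := ENNReal.sum_le_tsum _
  calc (r : ℝ≥0∞) ≤ (n : ℝ≥0∞) := by exact_mod_cast hn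
    _ ≤ _ := hs n
    _ ≤ _ := h2

variable {𝕜 : Type} [RCLike 𝕜] {X : Type*} [NormedAddCommGroup X]
  [NormedSpace 𝕜 X] [CompleteSpace X]

theorem exists_biorthogonal_of_summable {T : Type} [Uncountable T] (y : T → X)
    (f : T → (X →L[𝕜] 𝕜)) (hdiag : ∀ t, f t (y t) ≠ 0)
    (hsum : ∀ t, ∑' s, ‖f s (y t)‖ₑ ≠ ⊤) : HasUncountableBiorthogonal 𝕜 X := by
  classical
  -- thin out
  obtain ⟨N, hN⟩ : ∃ N : ℕ, ¬ ({t : T | 1 / ((N : ℝ) + 1) ≤ ‖f t (y t)‖ ∧ ‖y t‖ ≤ N}).Countable := by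
    by_contra hcon
    push Not at hcon
    have huniv : (univ : Set T).Countable := by
      refine (countable_iUnion hcon).mono ?_
      intro t _
      obtain ⟨n1, hn1⟩ := exists_nat_one_div_lt (norm_pos_iff.mpr (hdiag t))
      obtain ⟨n2, hn2⟩ := exists_nat_ge ‖y t‖
      refine mem_iUnion.mpr ⟨max n1 n2, ?_, ?_⟩
      · refine le_trans ?_ hn1.le
        apply one_div_le_one_div_of_le (by positivity)
        have : (n1 : ℝ) ≤ ((max n1 n2 : ℕ) : ℝ) := by exact_mod_cast le_max_left _ _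
        linarith
      · refine hn2.trans ?_
        exact_mod_cast le_max_right _ _
    exact not_countable (countable_univ_iff.mp huniv)
  let y' : T → X := fun t => (f t (y t))⁻¹ • y t
  have hsum' : ∀ t, ∑' s, ‖f s (y' t)‖ₑ ≠ ⊤ := by
    intro t
    have : ∀ s, ‖f s (y' t)‖ₑ = ‖(f t (y t))⁻¹‖ₑ * ‖f s (y t)‖ₑ := by
      intro s
      simp only [y', map_smul, smul_eq_mul, enorm_mul]
    simp only [this]
    rw [ENNReal.tsum_mul_left]
    exact ENNReal.mul_ne_top (by simp) (hsum t)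
  have hF : ∀ t, ∃ F : Finset T, ∑' s : {s // s ∉ F}, ‖f s (y' t)‖ₑ ≤ 1 / 2 := by
    intro t
    have h := ENNReal.tendsto_tsum_compl_atTop_zero (hsum' t)
    have h2 := h.eventually (ge_mem_nhds (show (0 : ℝ≥0∞) < 1 / 2 by simp))
    exact h2.exists
  choose F hF using hF
  obtain ⟨B, hBA, hBc, hfree⟩ := exists_free_set F _ hN
  have hBu : Uncountable B := by
    rw [← not_countable_iff]
    intro h
    exact hBc (countable_coe_iff.mp h)
  have hbound : ∀ t : B, ‖y' t‖ ≤ (N + 1) * N := by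
    rintro ⟨t, ht⟩
    obtain ⟨h1, h2⟩ := hBA ht
    simp only [y', norm_smul, norm_inv]
    apply mul_le_mul _ h2 (norm_nonneg _) (by positivity)
    rw [inv_le_comm₀ (norm_pos_iff.mpr (hdiag t)) (by positivity)]
    simpa using h1
  have hsumB : ∀ j : B, ∑' k : B, ‖(if k = j then 0 else f k (y' j) : 𝕜)‖ₑ ≤ 1 / 2 := by
    rintro ⟨t, ht⟩
    refine le_trans ?_ (hF t)
    have e1 : ∑' k : B, ‖(if k = ⟨t, ht⟩ then 0 else f k (y' t) : 𝕜)‖ₑ
        = ∑' k : B, (fun s : T => ‖(if s = t then 0 else f s (y' t) : 𝕜)‖ₑ) k := by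
      apply tsum_congr
      rintro ⟨k, hk⟩
      simp [Subtype.ext_iff]
    have e2 : ∑' s : {s // s ∉ F t}, ‖f s (y' t)‖ₑ
        = ∑' s : ({s | s ∉ F t} : Set T), (fun s : T => ‖f s (y' t)‖ₑ) s := rfl
    have e3 := tsum_subtype B (fun s : T => ‖(if s = t then 0 else f s (y' t) : 𝕜)‖ₑ)
    have e4 := tsum_subtype ({s | s ∉ F t} : Set T) (fun s : T => ‖f s (y' t)‖ₑ)
    rw [e1, e2, e3, e4]
    apply ENNReal.tsum_le_tsum
    intro s
    by_cases hs : s ∈ B
    · rw [indicator_of_mem hs]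
      by_cases hst : s = t
      · simp [hst]
      · have : s ∉ F t := hfree t ht s hs hst
        rw [indicator_of_mem (show s ∈ {s | s ∉ F t} from this)]
        simp [hst]
    · rw [indicator_of_notMem hs]
      exact zero_le
  obtain ⟨z, hz1, hz2⟩ := exists_biorthogonal_of_almost (fun t : B => y' t) (fun t : B => f t)
    ((N + 1) * N) hbound (fun t => by simp [y', hdiag t]) hsumB
  exact ⟨B, z, fun t : B => f t, hBu, hz1, hz2⟩

end Pool.Agent.Lib.MP_d107a2_lc
end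

section

open Set Filter Topology
open scoped ENNReal

namespace Pool.Agent.Lib.MP_d107a2_lc

variable {𝕜 : Type} [RCLike 𝕜]

/-- A sequentially compact set whose nonzero differences are covered by countably many
sequentially closed sets missing zero is separated by countably many coordinates. -/
theorem core_second {ι : Type} (K : Set (ι → 𝕜)) (hK : IsSeqCompact K) (R : ℕ → Set (ι → 𝕜))
    (hRc : ∀ m, IsSeqClosed (R m)) (hR0 : ∀ m, (0 : ι → 𝕜) ∉ R m)
    (hRL : ∀ u ∈ K, ∀ v ∈ K, u ≠ v → ∃ m, u - v ∈ R m) :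
    ∃ C : Set ι, C.Countable ∧ ∀ u ∈ K, ∀ v ∈ K, (∀ i ∈ C, u i = v i) → u = v := by
  classical
  have hKs : SeqCompactSpace K := isSeqCompact_iff_seqCompactSpace.mp hK
  have hZ : SeqCompactSpace (K × K) := by
    refine ⟨fun x _ => ?_⟩
    obtain ⟨a, φ, hφ, ha⟩ := SeqCompactSpace.tendsto_subseq (fun n => (x n).1)
    obtain ⟨b, ψ, hψ, hb⟩ := SeqCompactSpace.tendsto_subseq (fun n => (x (φ n)).2)
    refine ⟨(a, b), trivial, φ ∘ ψ, hφ.comp hψ, ?_⟩
    rw [nhds_prod_eq]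
    exact (ha.comp hψ.tendsto_atTop).prodMk hb
  -- sequential continuity of coordinates
  have hc1 : ∀ {x : ℕ → K × K} {p : K × K}, Tendsto x atTop (𝓝 p) →
      Tendsto (fun n => ((x n).1 : ι → 𝕜)) atTop (𝓝 (p.1 : ι → 𝕜)) := fun {x p} h =>
    ((continuous_subtype_val.comp continuous_fst).tendsto p).comp h
  have hc2 : ∀ {x : ℕ → K × K} {p : K × K}, Tendsto x atTop (𝓝 p) →
      Tendsto (fun n => ((x n).2 : ι → 𝕜)) atTop (𝓝 (p.2 : ι → 𝕜)) := fun {x p} h =>
    ((continuous_subtype_val.comp continuous_snd).tendsto p).comp h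
  let D : ℕ → K × K → Set (K × K) := fun n x =>
    {z | (z.1 : ι → 𝕜) - x.1 ∈ R n} ∪ {z | (z.2 : ι → 𝕜) - x.2 ∈ R n}
  have hD : ∀ m x, IsSeqClosed (D m x) := by
    intro m x
    apply isSeqClosed_union
    · intro z p hz hlim
      exact hRc m hz ((hc1 hlim).sub tendsto_const_nhds)
    · intro z p hz hlim
      exact hRc m hz ((hc2 hlim).sub tendsto_const_nhds)
  have hQ : ∀ m, IsSeqClosed ({q : (ι → 𝕜) × (ι → 𝕜) | q.1 ∈ R m} ∪
      {q : (ι → 𝕜) × (ι → 𝕜) | q.2 ∈ R m}) := by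
    intro m
    apply isSeqClosed_union
    · intro z p hz hlim
      exact hRc m hz ((continuous_fst.tendsto p).comp hlim)
    · intro z p hz hlim
      exact hRc m hz ((continuous_snd.tendsto p).comp hlim)
  have hsep : ∀ x y : K × K, y ≠ x → ∃ m, y ∈ D m x := by
    intro x y hyx
    by_cases h1 : (y.1 : ι → 𝕜) = x.1
    · have h2 : (y.2 : ι → 𝕜) ≠ x.2 := by
        intro h2
        exact hyx (Prod.ext (Subtype.ext h1) (Subtype.ext h2))
      obtain ⟨m, hm⟩ := hRL _ y.2.2 _ x.2.2 h2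
      exact ⟨m, Or.inr hm⟩
    · obtain ⟨m, hm⟩ := hRL _ y.1.2 _ x.1.2 h1
      exact ⟨m, Or.inl hm⟩
  have hno : ∀ m, ¬ ∃ x : ℕ → K × K, ∀ i k, i < k → x k ∈ D m (x i) := by
    rintro m ⟨x, hx⟩
    obtain ⟨p, φ, hφ, hlim⟩ := SeqCompactSpace.tendsto_subseq x
    have h1 := hc1 hlim
    have h2 := hc2 hlim
    simp only [Function.comp_apply] at h1 h2
    have hstep : ∀ i, (((p.1 : ι → 𝕜) - (x (φ i)).1, (p.2 : ι → 𝕜) - (x (φ i)).2) :
        (ι → 𝕜) × (ι → 𝕜)) ∈ ({q : (ι → 𝕜) × (ι → 𝕜) | q.1 ∈ R m} ∪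
      {q : (ι → 𝕜) × (ι → 𝕜) | q.2 ∈ R m}) := by
      intro i
      have hl : Tendsto (fun k => (((x (φ (k + (i + 1)))).1 : ι → 𝕜) - (x (φ i)).1,
          ((x (φ (k + (i + 1)))).2 : ι → 𝕜) - (x (φ i)).2)) atTop
          (𝓝 (((p.1 : ι → 𝕜) - (x (φ i)).1, (p.2 : ι → 𝕜) - (x (φ i)).2))) := by
        rw [nhds_prod_eq]
        apply Tendsto.prodMk
        · exact (h1.comp (tendsto_add_atTop_nat (i + 1))).sub tendsto_const_nhds
        · exact (h2.comp (tendsto_add_atTop_nat (i + 1))).sub tendsto_const_nhds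
      refine hQ m (fun k => ?_) hl
      have := hx (φ i) (φ (k + (i + 1))) (hφ (by omega))
      exact this
    have hl : Tendsto (fun i => (((p.1 : ι → 𝕜) - (x (φ i)).1, (p.2 : ι → 𝕜) - (x (φ i)).2) :
        (ι → 𝕜) × (ι → 𝕜))) atTop (𝓝 ((p.1 : ι → 𝕜) - p.1, (p.2 : ι → 𝕜) - p.2)) := by
      rw [nhds_prod_eq]
      exact (tendsto_const_nhds.sub h1).prodMk (tendsto_const_nhds.sub h2)
    have h0 := hQ m hstep hl
    rw [sub_self, sub_self] at h0
    rcases h0 with h0 | h0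
    · exact hR0 m h0
    · exact hR0 m h0
  -- the finite sets of coordinates
  have hfin : ∀ m, ∃ F : Finset ι, ∀ u ∈ K, ∀ v ∈ K, (∀ i ∈ F, u i = v i) → u - v ∉ R m := by
    intro m
    by_contra hcon
    push Not at hcon
    let Cs : Finset ι → Set (K × K) := fun F =>
      {z | (z.1 : ι → 𝕜) - z.2 ∈ R m ∧ ∀ i ∈ F, (z.1 : ι → 𝕜) i = (z.2 : ι → 𝕜) i}
    have hmain := chaber D hD hsep hno (range Cs) ⟨_, mem_range_self ∅⟩
      (by
        rintro _ ⟨F, rfl⟩ z p hz hlim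
        refine ⟨hRc m (fun n => (hz n).1) ((hc1 hlim).sub (hc2 hlim)), fun i hi => ?_⟩
        have e1 := (tendsto_pi_nhds.mp (hc1 hlim)) i
        have e2 := (tendsto_pi_nhds.mp (hc2 hlim)) i
        have e3 : (fun n => ((z n).1 : ι → 𝕜) i) = fun n => ((z n).2 : ι → 𝕜) i := by
          funext n
          exact (hz n).2 i hi
        rw [e3] at e1
        exact tendsto_nhds_unique e1 e2)
      (by
        rintro _ ⟨F, rfl⟩
        obtain ⟨u, hu, v, hv, heq, hmem⟩ := hcon F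
        exact ⟨(⟨u, hu⟩, ⟨v, hv⟩), hmem, heq⟩)
      (by
        rintro _ ⟨F, rfl⟩ _ ⟨F', rfl⟩
        refine ⟨F ∪ F', ?_⟩
        ext z
        constructor
        · rintro ⟨h1, h2⟩
          exact ⟨⟨h1, fun i hi => h2 i (Finset.mem_union_left _ hi)⟩,
            ⟨h1, fun i hi => h2 i (Finset.mem_union_right _ hi)⟩⟩
        · rintro ⟨⟨h1, h2⟩, ⟨_, h3⟩⟩
          refine ⟨h1, fun i hi => ?_⟩
          rcases Finset.mem_union.mp hi with h | h
          · exact h2 i h
          · exact h3 i h)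
    obtain ⟨z, hz⟩ := hmain
    have h1 : (z.1 : ι → 𝕜) - z.2 ∈ R m := (hz _ ⟨∅, rfl⟩).1
    have h2 : (z.1 : ι → 𝕜) = z.2 := by
      funext i
      exact (hz _ ⟨{i}, rfl⟩).2 i (Finset.mem_singleton_self i)
    rw [h2, sub_self] at h1
    exact hR0 m h1
  choose F hF using hfin
  refine ⟨⋃ m, (↑(F m) : Set ι), countable_iUnion fun m => (F m).countable_toSet, ?_⟩
  intro u hu v hv heq
  by_contra hne
  obtain ⟨m, hm⟩ := hRL u hu v hv hne
  exact hF m u hu v hv (fun i hi => heq i (mem_iUnion.mpr ⟨m, hi⟩)) hm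

end Pool.Agent.Lib.MP_d107a2_lc
end
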