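import Mathlib
import Pool.Agent.Lib.MP_d107a2_lc.Core

section

open Set Filter Topology
open scoped ENNReal

namespace Pool.Agent.Lib.MP_d107a2_lc

variable {𝕜 : Type} [RCLike 𝕜] {X : Type*} [NormedAddCommGroup X] [NormedSpace 𝕜 X]
  [CompleteSpace X]

theorem main_core (hPID : PID) {ι : Type} (hι : Cardinal.mk ι < bounding) (x : ι → X)
    (K : Set (X →L[𝕜] 𝕜)) (hK : IsSeqCompact ((fun (u : X →L[𝕜] 𝕜) (i : ι) => u (x i)) '' K))
    (hsep : ∀ C : Set ι, C.Countable → ∃ u ∈ K, ∃ v ∈ K, (∀ i ∈ C, u (x i) = v (x i)) ∧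
      ∃ i, u (x i) ≠ v (x i)) : HasUncountableBiorthogonal 𝕜 X := by
  let L : Set (ι → 𝕜) := range (fun (f : X →L[𝕜] 𝕜) (i : ι) => f (x i))
  rcases hPID {φ : ι → 𝕜 // φ ∈ L ∧ φ ≠ 0}
    (sumIdeal (fun (φ : {φ : ι → 𝕜 // φ ∈ L ∧ φ ≠ 0}) (i : ι) => ‖φ.1 i‖ₑ))
    (sumIdeal_isPIdeal hι _ (fun _ _ => by simp)) with ⟨T, hT, hTI⟩ | ⟨P, hPc, hP⟩
  · have hTu : Uncountable T := by
      rw [← not_countable_iff]
      intro h
      exact hT (countable_coe_iff.mp h)
    have hf : ∀ t : T, ∃ f : X →L[𝕜] 𝕜, ∀ i, f (x i) = t.1.1 i := by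
      rintro ⟨⟨φ, ⟨f, hf⟩, hne⟩, ht⟩
      exact ⟨f, fun i => congrFun hf i⟩
    have hi : ∀ t : T, ∃ i, t.1.1 i ≠ 0 := by
      rintro ⟨⟨φ, hL, hne⟩, ht⟩
      by_contra hcon
      push Not at hcon
      exact hne (funext hcon)
    choose f hf using hf
    choose i hi using hi
    apply exists_biorthogonal_of_summable (fun t => x (i t)) f
    · intro t
      rw [hf]
      exact hi t
    · intro t
      apply tsum_ne_top_of_countable
      intro A hA
      have h1 := hTI (Subtype.val '' A) (by rintro _ ⟨a, _, rfl⟩; exact a.2) (hA.image _)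
      have h2 := h1.2 (i t)
      rw [tsum_image (fun φ : {φ : ι → 𝕜 // φ ∈ L ∧ φ ≠ 0} => ‖φ.1 (i t)‖ₑ)
        Subtype.val_injective.injOn] at h2
      simpa only [hf] using h2
  · exfalso
    obtain ⟨R, hRc, hR0, hRL⟩ := second_alt hι L P hPc hP
    obtain ⟨C, hC, hCK⟩ := core_second _ hK R hRc hR0 (by
      rintro _ ⟨u, _, rfl⟩ _ ⟨v, _, rfl⟩ hne
      apply hRL _ _ (sub_ne_zero.mpr hne)
      exact ⟨u - v, rfl⟩)
    obtain ⟨u, hu, v, hv, heq, i, hi⟩ := hsep C hC
    exact hi (congrFun (hCK _ ⟨u, hu, rfl⟩ _ ⟨v, hv, rfl⟩ heq) i)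

/-- Recursive choice along the first uncountable ordinal. -/
theorem exists_recursive_choice {Y : Type*} (Q : Set Y → Y → Prop)
    (hQ : ∀ C : Set Y, C.Countable → ∃ y, Q C y) :
    ∃ (ι : Type) (x : ι → Y) (seg : ι → Set ι), Cardinal.mk ι = Cardinal.aleph 1 ∧
      (∀ C : Set ι, C.Countable → ∃ ξ, C ⊆ seg ξ) ∧ ∀ ξ, Q (x '' seg ξ) (x ξ) := by
  obtain ⟨y0, _⟩ := hQ ∅ countable_empty
  have : Nonempty Y := ⟨y0⟩
  choose! g hg using hQ
  let ι : Type := (Cardinal.aleph 1).ord.ToType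
  have hmk : Cardinal.mk ι = Cardinal.aleph 1 := Cardinal.mk_ord_toType _
  have hseg : ∀ ξ : ι, (Iio ξ).Countable := by
    intro ξ
    have h := Cardinal.mk_Iio_lt ξ (by simp [ι])
    rw [hmk] at h
    rw [← Cardinal.le_aleph0_iff_set_countable, ← Order.lt_succ_iff, ← Cardinal.aleph_zero,
      Cardinal.succ_aleph, zero_add]
    exact h
  let x : ι → Y := (wellFounded_lt (α := ι)).fix
    (fun ξ prev => g (range fun η : Iio ξ => prev η.1 η.2))
  have hx : ∀ ξ, x ξ = g (x '' Iio ξ) := by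
    intro ξ
    have h := (wellFounded_lt (α := ι)).fix_eq
      (fun ξ prev => g (range fun η : Iio ξ => prev η.1 η.2)) ξ
    have h2 : (range fun η : Iio ξ => x η.1) = x '' Iio ξ := by
      rw [image_eq_range]
    rw [← h2]
    exact h
  refine ⟨ι, x, fun ξ => Iio ξ, hmk, ?_, ?_⟩
  · intro C hC
    by_contra hcon
    push Not at hcon
    have huniv : (univ : Set ι).Countable := by
      have h1 : (⋃ c ∈ C, Iic c).Countable := by
        apply hC.biUnion
        intro c _
        have : Iic c = insert c (Iio c) := by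
          ext z; simp [le_iff_eq_or_lt]
        rw [this]
        exact (hseg c).insert c
      apply h1.mono
      intro ξ _
      have h2 := hcon ξ
      rw [not_subset] at h2
      obtain ⟨c, hc, hcξ⟩ := h2
      have h3 : ξ ≤ c := not_lt.mp (fun hlt => hcξ hlt)
      exact mem_biUnion hc h3
    have h3 : Cardinal.mk ι ≤ Cardinal.aleph0 := by
      rw [← Cardinal.mk_univ]
      exact Cardinal.le_aleph0_iff_set_countable.mpr huniv
    rw [hmk] at h3
    exact absurd h3 (not_le.mpr Cardinal.aleph0_lt_aleph_one)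
  · intro ξ
    rw [hx]
    exact hg _ ((hseg ξ).image x)

/-- The general theorem for sequentially compact sets of functionals. -/
theorem seqCompact_main (hPID : PID) (hb : Cardinal.aleph 1 < bounding)
    (K : Set (WeakDual 𝕜 X)) (hK : IsSeqCompact K)
    (hsep : ∀ C : Set X, C.Countable → ∃ u ∈ K, ∃ v ∈ K, u ≠ v ∧ ∀ x ∈ C, u x = v x) :
    HasUncountableBiorthogonal 𝕜 X := by
  obtain ⟨ι, x, seg, hmk, hbd, hx⟩ := exists_recursive_choice
    (fun (C : Set X) (y : X) => ∃ u ∈ K, ∃ v ∈ K, (∀ c ∈ C, u c = v c) ∧ u y ≠ v y) (by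
      intro C hC
      obtain ⟨u, hu, v, hv, hne, heq⟩ := hsep C hC
      have : ∃ y, u y ≠ v y := by
        by_contra hcon
        push Not at hcon
        exact hne (DFunLike.ext _ _ hcon)
      obtain ⟨y, hy⟩ := this
      exact ⟨y, u, hu, v, hv, heq, hy⟩)
  apply main_core hPID (by rw [hmk]; exact hb) x (WeakDual.toStrongDual '' K)
  · rw [image_image]
    apply IsSeqCompact.image _ hK
    apply Continuous.seqContinuous
    apply continuous_pi
    intro i
    exact WeakDual.eval_continuous (x i)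
  · intro C hC
    obtain ⟨ξ, hξ⟩ := hbd C hC
    obtain ⟨u, hu, v, hv, heq, hne⟩ := hx ξ
    exact ⟨WeakDual.toStrongDual u, ⟨u, hu, rfl⟩, WeakDual.toStrongDual v, ⟨v, hv, rfl⟩,
      fun i hi => heq (x i) ⟨i, hξ hi, rfl⟩, ξ, hne⟩

end Pool.Agent.Lib.MP_d107a2_lc
end

section

open Set Filter Topology
open scoped ENNReal

namespace Pool.Agent.Lib.MP_d107a2_lc

variable {𝕜 : Type} [RCLike 𝕜] {X : Type*} [NormedAddCommGroup X] [NormedSpace 𝕜 X]

/-- In a nonseparable space no countable set separates the points of the dual ball. -/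
theorem exists_functional_of_countable (hX : ¬ TopologicalSpace.SeparableSpace X)
    (C : Set X) (hC : C.Countable) :
    ∃ f : X →L[𝕜] 𝕜, ‖f‖ ≤ 1 ∧ f ≠ 0 ∧ ∀ x ∈ C, f x = 0 := by
  let M : Submodule 𝕜 X := (Submodule.span 𝕜 C).topologicalClosure
  have hMsep : TopologicalSpace.IsSeparable (M : Set X) := by
    have h1 : TopologicalSpace.IsSeparable (Submodule.span 𝕜 C : Set X) :=
      hC.isSeparable.span
    exact h1.closure
  have hne : ∃ y, y ∉ M := by
    by_contra hcon
    push Not at hcon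
    apply hX
    have : (M : Set X) = univ := eq_univ_of_forall hcon
    rw [this] at hMsep
    exact TopologicalSpace.isSeparable_univ_iff.mp hMsep
  obtain ⟨y, hy⟩ := hne
  have hclosed : IsClosed (M : Set X) := Submodule.isClosed_topologicalClosure _
  obtain ⟨f, hf1, hf2⟩ : ∃ f : X →L[𝕜] 𝕜, f y ≠ 0 ∧ ∀ x ∈ M, f x = 0 := by
    have hq : (Submodule.Quotient.mk y : X ⧸ M) ≠ 0 := by
      intro h
      exact hy ((Submodule.Quotient.mk_eq_zero M).mp h)
    obtain ⟨g, hg1, hg2⟩ := exists_dual_vector 𝕜 (Submodule.Quotient.mk y : X ⧸ M)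
      (by simpa using hq)
    refine ⟨g.comp M.mkQL, ?_, ?_⟩
    · simp only [ContinuousLinearMap.comp_apply]
      change g (Submodule.Quotient.mk y : X ⧸ M) ≠ 0
      rw [hg2]
      simpa using hq
    · intro x hx
      simp only [ContinuousLinearMap.comp_apply]
      change g (Submodule.Quotient.mk x : X ⧸ M) = 0
      rw [(Submodule.Quotient.mk_eq_zero M).mpr hx, map_zero]
  have hf0 : f ≠ 0 := by
    rintro rfl
    exact hf1 rfl
  have hn : ‖f‖ ≠ 0 := norm_ne_zero_iff.mpr hf0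
  refine ⟨((‖f‖⁻¹ : ℝ) : 𝕜) • f, ?_, ?_, ?_⟩
  · rw [norm_smul]
    simp [hn]
  · intro h
    have h2 := congrArg (fun g : X →L[𝕜] 𝕜 => g y) h
    simp [hn, hf1] at h2
  · intro x hx
    have : x ∈ M := Submodule.le_topologicalClosure _ (Submodule.subset_span hx)
    simp [hf2 x this]

/-- The case of nonseparable spaces with weak-star sequentially compact dual ball. -/
theorem nonseparable_case [CompleteSpace X] (hPID : PID) (hb : Cardinal.aleph 1 < bounding)
    (hX : ¬ TopologicalSpace.SeparableSpace X)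
    (hball : IsSeqCompact {u : WeakDual 𝕜 X | ‖WeakDual.toStrongDual u‖ ≤ 1}) :
    HasUncountableBiorthogonal 𝕜 X := by
  apply seqCompact_main hPID hb _ hball
  intro C hC
  obtain ⟨f, hf1, hf2, hf3⟩ := exists_functional_of_countable (𝕜 := 𝕜) hX C hC
  refine ⟨StrongDual.toWeakDual f, by simpa using hf1, 0, by simp, ?_, ?_⟩
  · intro h
    apply hf2
    ext x
    exact congrArg (fun u : WeakDual 𝕜 X => u x) h
  · intro x hx
    exact hf3 x hx

end Pool.Agent.Lib.MP_d107a2_lc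
end
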