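import Mathlib
import Pool.Agent.Lib.MP_d107a2_lc.Nonsep

open Set Filter Topology

namespace Pool.Agent.Lib.MP_d107a2_lc

/-- The splitting number: least size of a family of subsets of `ℕ` splitting every infinite set. -/
noncomputable def splitting : Cardinal.{0} :=
  sInf {c | ∃ F : Set (Set ℕ), Cardinal.mk F = c ∧
    ∀ A : Set ℕ, A.Infinite → ∃ S ∈ F, (A ∩ S).Infinite ∧ (A \ S).Infinite}

/-- The covering number of the meagre ideal, computed in the Baire space. -/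
noncomputable def covMeagre : Cardinal.{0} :=
  sInf {c | ∃ F : Set (Set (ℕ → ℕ)), Cardinal.mk F = c ∧ (∀ S ∈ F, IsMeagre S) ∧ ⋃₀ F = univ}

theorem exists_unsplit {κ : Type} (hκ : Cardinal.mk κ < splitting) (S : κ → Set ℕ) :
    ∃ A : Set ℕ, A.Infinite ∧ ∀ k, (A ∩ S k).Finite ∨ (A \ S k).Finite := by
  by_contra hcon
  push Not at hcon
  have h1 : splitting ≤ Cardinal.mk (range S) := by
    apply csInf_le'
    refine ⟨range S, rfl, ?_⟩
    intro A hA
    obtain ⟨k, hk⟩ := hcon A hA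
    exact ⟨S k, mem_range_self k, hk.1, hk.2⟩
  have h2 : Cardinal.mk (range S) ≤ Cardinal.mk κ := Cardinal.mk_range_le
  exact absurd hκ (not_lt.mpr (h1.trans h2))

theorem exists_not_covered {κ : Type} (hκ : Cardinal.mk κ < covMeagre)
    (S : κ → Set (ℕ → ℕ)) (hS : ∀ k, IsMeagre (S k)) : ∃ g, ∀ k, g ∉ S k := by
  by_contra hcon
  push Not at hcon
  have h1 : covMeagre ≤ Cardinal.mk (range S) := by
    apply csInf_le'
    refine ⟨range S, rfl, ?_, ?_⟩
    · rintro _ ⟨k, rfl⟩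
      exact hS k
    · rw [sUnion_range]
      apply eq_univ_of_forall
      intro g
      obtain ⟨k, hk⟩ := hcon g
      exact mem_iUnion.mpr ⟨k, hk⟩
  have h2 : Cardinal.mk (range S) ≤ Cardinal.mk κ := Cardinal.mk_range_le
  exact absurd hκ (not_lt.mpr (h1.trans h2))

variable {𝕜 : Type} [RCLike 𝕜]

/-- Below the splitting number, bounded sequences of functions have convergent subsequences. -/
theorem exists_subseq_of_splitting {ι : Type} (hι : Cardinal.mk (ι × ℕ × ℕ) < splitting)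
    (v : ℕ → ι → 𝕜) (hv : ∀ n i, ‖v n i‖ ≤ 1) :
    ∃ φ : ℕ → ℕ, StrictMono φ ∧ ∀ i, CauchySeq (fun n => v (φ n) i) := by
  let q : ℕ → 𝕜 := TopologicalSpace.denseSeq 𝕜
  obtain ⟨A, hA, hAS⟩ := exists_unsplit hι
    (fun p : ι × ℕ × ℕ => {n | ‖v n p.1 - q p.2.1‖ < 1 / ((p.2.2 : ℝ) + 1)})
  refine ⟨Nat.nth (· ∈ A), Nat.nth_strictMono hA, fun i => ?_⟩
  rw [Metric.cauchySeq_iff']
  intro ε hε
  obtain ⟨m, hm⟩ := exists_nat_one_div_lt (half_pos hε)
  -- finitely many balls of radius `1 / (m + 1)` with centres in the dense sequence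
  have hcpt : IsCompact (Metric.closedBall (0 : 𝕜) 1) := isCompact_closedBall _ _
  have hr : (0 : ℝ) < 1 / ((m : ℝ) + 1) := by positivity
  obtain ⟨t, ht⟩ := hcpt.elim_finite_subcover (fun k : ℕ => Metric.ball (q k) (1 / ((m : ℝ) + 1)))
    (fun k => Metric.isOpen_ball) (by
      intro z _
      have hd := TopologicalSpace.denseRange_denseSeq 𝕜
      obtain ⟨k, hk⟩ := Metric.denseRange_iff.mp hd z _ hr
      exact mem_iUnion.mpr ⟨k, hk⟩)
  have hinf : ∃ k ∈ t, (A ∩ {n | ‖v n i - q k‖ < 1 / ((m : ℝ) + 1)}).Infinite := by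
    by_contra hcon
    push Not at hcon
    apply hA
    have h1 : (⋃ k ∈ t, (A ∩ {n | ‖v n i - q k‖ < 1 / ((m : ℝ) + 1)})).Finite :=
      t.finite_toSet.biUnion fun k hk => hcon k hk
    apply h1.subset
    intro n hn
    have h2 : v n i ∈ Metric.closedBall (0 : 𝕜) 1 := by simpa using hv n i
    obtain ⟨k, hk, hk2⟩ := mem_iUnion₂.mp (ht h2)
    refine mem_iUnion₂.mpr ⟨k, hk, hn, ?_⟩
    simpa [dist_eq_norm] using hk2
  obtain ⟨k, _, hk⟩ := hinf
  have hfin : (A \ {n | ‖v n i - q k‖ < 1 / ((m : ℝ) + 1)}).Finite := by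
    rcases hAS (i, k, m) with h | h
    · exact absurd h hk
    · exact h
  obtain ⟨N, hN⟩ := hfin.bddAbove
  refine ⟨N + 1, fun n hn => ?_⟩
  have hmem : ∀ n, N + 1 ≤ n → ‖v (Nat.nth (· ∈ A) n) i - q k‖ < 1 / ((m : ℝ) + 1) := by
    intro n hn
    by_contra hcon
    have h1 : Nat.nth (· ∈ A) n ∈ A := Nat.nth_mem_of_infinite hA n
    have h2 := hN ⟨h1, hcon⟩
    have h3 : n ≤ Nat.nth (· ∈ A) n := (Nat.nth_strictMono hA).id_le n
    omega
  have h1 := hmem n hn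
  have h2 := hmem (N + 1) le_rfl
  rw [dist_eq_norm]
  calc ‖v (Nat.nth (· ∈ A) n) i - v (Nat.nth (· ∈ A) (N + 1)) i‖
      = ‖(v (Nat.nth (· ∈ A) n) i - q k) - (v (Nat.nth (· ∈ A) (N + 1)) i - q k)‖ := by
        congr 1; ring
    _ ≤ ‖v (Nat.nth (· ∈ A) n) i - q k‖ + ‖v (Nat.nth (· ∈ A) (N + 1)) i - q k‖ :=
        norm_sub_le _ _
    _ < ε := by linarith

end Pool.Agent.Lib.MP_d107a2_lc
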