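import Mathlib
import Pool.Agent.Lib.MP_d107a2_lc.Defs
import Pool.Agent.Lib.MP_d107a2_lc.Splitting

section

open Set Filter Topology

namespace Pool.Agent.Lib.MP_d107a2_lc

variable {𝕜 : Type} [RCLike 𝕜] {X : Type*} [NormedAddCommGroup X] [NormedSpace 𝕜 X]

theorem norm_le_abs_re_add_abs_im (z : 𝕜) : ‖z‖ ≤ |RCLike.re z| + |RCLike.im z| := by
  have h := RCLike.norm_sq_eq_def (z := z)
  have h1 : ‖z‖ ^ 2 ≤ (|RCLike.re z| + |RCLike.im z|) ^ 2 := by
    have h2 : (|RCLike.re z| + |RCLike.im z|) ^ 2 = RCLike.re z * RCLike.re z +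
        RCLike.im z * RCLike.im z + 2 * |RCLike.re z| * |RCLike.im z| := by
      rw [add_sq, sq_abs, sq_abs]; ring
    rw [h2, h]
    have h3 := mul_nonneg (abs_nonneg (RCLike.re z)) (abs_nonneg (RCLike.im z))
    linarith
  exact le_of_sq_le_sq h1 (by positivity)

theorem exists_biorthogonal_of_l1 {F : Type} [Uncountable F] (x : F → X) (δ : ℝ) (hδ : 0 < δ)
    (h : ∀ c : F →₀ 𝕜, δ * (∑ i ∈ c.support, ‖c i‖) ≤ ‖Finsupp.linearCombination 𝕜 x c‖) :
    HasUncountableBiorthogonal 𝕜 X := by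
  have hli : LinearIndependent 𝕜 x := by
    rw [linearIndependent_iff]
    intro c hc
    have h1 := h c
    rw [hc, norm_zero] at h1
    have h2 : ∑ i ∈ c.support, ‖c i‖ ≤ 0 := by
      by_contra hcon
      push Not at hcon
      have := mul_pos hδ hcon
      linarith
    ext i
    by_contra hne
    have hi : i ∈ c.support := by simpa using hne
    have h3 : ‖c i‖ ≤ ∑ i ∈ c.support, ‖c i‖ :=
      Finset.single_le_sum (f := fun i => ‖c i‖) (fun i _ => norm_nonneg _) hi
    have h4 : 0 < ‖c i‖ := norm_pos_iff.mpr hne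
    linarith
  have hg : ∀ γ : F, ∃ g : X →L[𝕜] 𝕜, ∀ i, g (x i) = Finsupp.single i (1 : 𝕜) γ := by
    intro γ
    let φ : Submodule.span 𝕜 (range x) →ₗ[𝕜] 𝕜 := (Finsupp.lapply γ) ∘ₗ hli.repr
    have hφ : ∀ w, ‖φ w‖ ≤ δ⁻¹ * ‖w‖ := by
      intro w
      have h1 := h (hli.repr w)
      rw [hli.linearCombination_repr] at h1
      have h2 : ‖φ w‖ ≤ ∑ i ∈ (hli.repr w).support, ‖(hli.repr w) i‖ := by
        change ‖(hli.repr w) γ‖ ≤ _
        by_cases hi : γ ∈ (hli.repr w).support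
        · exact Finset.single_le_sum (f := fun i => ‖(hli.repr w) i‖) (fun i _ => norm_nonneg _) hi
        · have : (hli.repr w) γ = 0 := by simpa using hi
          rw [this, norm_zero]
          exact Finset.sum_nonneg fun i _ => norm_nonneg _
      have h3 : ∑ i ∈ (hli.repr w).support, ‖(hli.repr w) i‖ ≤ δ⁻¹ * ‖w‖ := by
        rw [le_inv_mul_iff₀ hδ]
        exact h1
      exact h2.trans h3
    obtain ⟨g, hg, _⟩ := exists_extension_norm_eq (Submodule.span 𝕜 (range x))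
      (φ.mkContinuous δ⁻¹ hφ)
    refine ⟨g, fun i => ?_⟩
    have h1 := hg ⟨x i, Submodule.subset_span ⟨i, rfl⟩⟩
    simp only at h1
    rw [h1]
    change (hli.repr ⟨x i, _⟩) γ = _
    rw [hli.repr_eq_single i ⟨x i, Submodule.subset_span ⟨i, rfl⟩⟩ rfl]
  choose g hg using hg
  refine ⟨F, x, g, inferInstance, fun i => ?_, fun i j hij => ?_⟩
  · rw [hg]; simp
  · rw [hg]; simp [Ne.symm hij]

theorem l1_of_indep {F : Type} (x : F → X) (f : ℕ → (X →L[𝕜] 𝕜)) (hf : ∀ n, ‖f n‖ ≤ 1)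
    (a b : 𝕜) (r : ℝ) (hr : 0 < r) (hab : 10 * r ≤ ‖b - a‖)
    (hind : ∀ G H : Finset F, Disjoint G H →
      ∃ n, (∀ i ∈ G, ‖f n (x i) - a‖ < r) ∧ (∀ i ∈ H, ‖f n (x i) - b‖ < r)) (c : F →₀ 𝕜) :
    (3 * r / 2) * (∑ i ∈ c.support, ‖c i‖) ≤ ‖Finsupp.linearCombination 𝕜 x c‖ := by
  classical
  -- a general estimate for a real-valued additive contraction
  have key : ∀ τ : 𝕜 →+ ℝ, (∀ z, |τ z| ≤ ‖z‖) →
      (1 / 2) * (∑ i ∈ c.support, ‖c i * (b - a)‖) ≤ ∑ i ∈ c.support, |τ (c i * (b - a))| →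
      (3 * r / 2) * (∑ i ∈ c.support, ‖c i‖) ≤ ‖Finsupp.linearCombination 𝕜 x c‖ := by
    intro τ hτ hsum
    let G := c.support.filter (fun i => 0 ≤ τ (c i * (b - a)))
    let H := c.support.filter (fun i => ¬ 0 ≤ τ (c i * (b - a)))
    have hGH : Disjoint G H := Finset.disjoint_filter_filter_not _ _ _
    obtain ⟨n, hn1, hn2⟩ := hind H G hGH.symm
    obtain ⟨m, hm1, hm2⟩ := hind G H hGH
    -- the error terms
    have hterm : ∀ i ∈ c.support, |τ (c i * (b - a))| - 2 * r * ‖c i‖ ≤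
        τ (c i * (f n (x i) - f m (x i))) := by
      intro i hi
      by_cases hs : 0 ≤ τ (c i * (b - a))
      · have hiG : i ∈ G := Finset.mem_filter.mpr ⟨hi, hs⟩
        have e1 := hn2 i hiG
        have e2 := hm1 i hiG
        have e3 : c i * (f n (x i) - f m (x i)) = c i * (b - a) +
            c i * ((f n (x i) - b) - (f m (x i) - a)) := by ring
        have e4 : ‖c i * ((f n (x i) - b) - (f m (x i) - a))‖ ≤ 2 * r * ‖c i‖ := by
          rw [norm_mul]
          have e5 : ‖(f n (x i) - b) - (f m (x i) - a)‖ ≤ 2 * r := by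
            have := norm_sub_le (f n (x i) - b) (f m (x i) - a)
            linarith
          have := mul_le_mul_of_nonneg_left e5 (norm_nonneg (c i))
          linarith
        have e6 := (abs_le.mp ((hτ _).trans e4)).1
        rw [e3, map_add, abs_of_nonneg hs]
        linarith
      · have hiH : i ∈ H := Finset.mem_filter.mpr ⟨hi, hs⟩
        have e1 := hn1 i hiH
        have e2 := hm2 i hiH
        have e3 : c i * (f n (x i) - f m (x i)) = -(c i * (b - a)) +
            c i * ((f n (x i) - a) - (f m (x i) - b)) := by ring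
        have e4 : ‖c i * ((f n (x i) - a) - (f m (x i) - b))‖ ≤ 2 * r * ‖c i‖ := by
          rw [norm_mul]
          have e5 : ‖(f n (x i) - a) - (f m (x i) - b)‖ ≤ 2 * r := by
            have := norm_sub_le (f n (x i) - a) (f m (x i) - b)
            linarith
          have := mul_le_mul_of_nonneg_left e5 (norm_nonneg (c i))
          linarith
        have e6 := (abs_le.mp ((hτ _).trans e4)).1
        rw [e3, map_add, map_neg, abs_of_neg (not_le.mp hs)]
        linarith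
    have hsum2 : ∑ i ∈ c.support, (|τ (c i * (b - a))| - 2 * r * ‖c i‖) ≤
        τ ((f n - f m) (Finsupp.linearCombination 𝕜 x c)) := by
      have e1 : (f n - f m) (Finsupp.linearCombination 𝕜 x c) =
          ∑ i ∈ c.support, c i * (f n (x i) - f m (x i)) := by
        rw [Finsupp.linearCombination_apply, Finsupp.sum, map_sum]
        apply Finset.sum_congr rfl
        intro i _
        simp [mul_sub]
      rw [e1, map_sum]
      exact Finset.sum_le_sum hterm
    have hbound : τ ((f n - f m) (Finsupp.linearCombination 𝕜 x c)) ≤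
        2 * ‖Finsupp.linearCombination 𝕜 x c‖ := by
      calc τ ((f n - f m) (Finsupp.linearCombination 𝕜 x c))
          ≤ |τ ((f n - f m) (Finsupp.linearCombination 𝕜 x c))| := le_abs_self _
        _ ≤ ‖(f n - f m) (Finsupp.linearCombination 𝕜 x c)‖ := hτ _
        _ ≤ ‖f n - f m‖ * ‖Finsupp.linearCombination 𝕜 x c‖ := ContinuousLinearMap.le_opNorm _ _
        _ ≤ 2 * ‖Finsupp.linearCombination 𝕜 x c‖ := by
          apply mul_le_mul_of_nonneg_right _ (norm_nonneg _)
          have := norm_sub_le (f n) (f m)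
          have h1 := hf n
          have h2 := hf m
          linarith
    rw [Finset.sum_sub_distrib, ← Finset.mul_sum] at hsum2
    have e7 : ∑ i ∈ c.support, ‖c i * (b - a)‖ = (∑ i ∈ c.support, ‖c i‖) * ‖b - a‖ := by
      rw [Finset.sum_mul]
      apply Finset.sum_congr rfl
      intro i _
      rw [norm_mul]
    rw [e7] at hsum
    have hnn : 0 ≤ ∑ i ∈ c.support, ‖c i‖ := Finset.sum_nonneg fun i _ => norm_nonneg _
    have e8 : (∑ i ∈ c.support, ‖c i‖) * (10 * r) ≤ (∑ i ∈ c.support, ‖c i‖) * ‖b - a‖ :=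
      mul_le_mul_of_nonneg_left hab hnn
    nlinarith
  -- real or imaginary parts
  have hsplit : ∑ i ∈ c.support, ‖c i * (b - a)‖ ≤
      (∑ i ∈ c.support, |RCLike.re (c i * (b - a))|) +
        ∑ i ∈ c.support, |RCLike.im (c i * (b - a))| := by
    rw [← Finset.sum_add_distrib]
    apply Finset.sum_le_sum
    intro i _
    exact norm_le_abs_re_add_abs_im _
  by_cases hre : (1 / 2) * (∑ i ∈ c.support, ‖c i * (b - a)‖) ≤
      ∑ i ∈ c.support, |RCLike.re (c i * (b - a))|
  · exact key RCLike.re (fun z => RCLike.abs_re_le_norm z) hre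
  · apply key RCLike.im (fun z => RCLike.abs_im_le_norm z)
    push Not at hre
    linarith

end Pool.Agent.Lib.MP_d107a2_lc
end

section

open Set Filter Topology

namespace Pool.Agent.Lib.MP_d107a2_lc

/-- One run of the game along `g`: pass to the set coded by `g n` whenever this is possible. -/
noncomputable def chain (e : ℕ → Set ℕ) (g : ℕ → ℕ) : ℕ → Set ℕ
  | 0 => e 0
  | n + 1 => open Classical in if e (g n) ⊆ chain e g n then e (g n) else chain e g n

theorem chain_congr (e : ℕ → Set ℕ) (g h : ℕ → ℕ) (n : ℕ) (hgh : ∀ i < n, g i = h i) :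
    chain e g n = chain e h n := by
  induction n with
  | zero => rfl
  | succ n ih =>
    simp only [chain]
    rw [ih (fun i hi => hgh i (Nat.lt_succ_of_lt hi)), hgh n (Nat.lt_succ_self n)]

theorem chain_mem (e : ℕ → Set ℕ) (g : ℕ → ℕ) (n : ℕ) : chain e g n ∈ range e := by
  induction n with
  | zero => exact ⟨0, rfl⟩
  | succ n ih =>
    simp only [chain]
    split_ifs
    · exact ⟨g n, rfl⟩
    · exact ih

theorem chain_antitone (e : ℕ → Set ℕ) (g : ℕ → ℕ) : Antitone (chain e g) := by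
  apply antitone_nat_of_succ_le
  intro n
  simp only [chain]
  split_ifs with h
  · exact h
  · exact le_rfl

/-- Fewer than `cov(M)` dense requirements over a countable family can be met by a chain. -/
theorem exists_generic_chain {κ : Type} (hκ : Cardinal.mk κ < covMeagre) (M : Set (Set ℕ))
    (hMc : M.Countable) (hMn : M.Nonempty) (D : κ → Set (Set ℕ))
    (hD : ∀ k, ∀ N ∈ M, ∃ N' ∈ M, N' ⊆ N ∧ N' ∈ D k) :
    ∃ N : ℕ → Set ℕ, Antitone N ∧ (∀ n, N n ∈ M) ∧ ∀ k, ∃ n, N n ∈ D k := by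
  classical
  obtain ⟨e, he⟩ := hMc.exists_eq_range hMn
  have hlc : ∀ n, IsLocallyConstant (fun g : ℕ → ℕ => chain e g n) := by
    intro n
    rw [IsLocallyConstant.iff_exists_open]
    intro g
    refine ⟨PiNat.cylinder g n, PiNat.isOpen_cylinder _ g n, PiNat.self_mem_cylinder g n, ?_⟩
    intro h hh
    exact chain_congr e h g n (fun i hi => (PiNat.mem_cylinder_iff.mp hh) i hi)
  have hmeagre : ∀ k, IsMeagre ({g : ℕ → ℕ | ∃ n, chain e g n ∈ D k}ᶜ) := by
    intro k
    rw [IsMeagre, compl_compl]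
    apply residual_of_dense_open
    · have : {g : ℕ → ℕ | ∃ n, chain e g n ∈ D k} = ⋃ n, {g : ℕ → ℕ | chain e g n ∈ D k} := by
        ext g; simp
      rw [this]
      exact isOpen_iUnion fun n => (hlc n) (D k)
    · rw [(PiNat.isTopologicalBasis_cylinders (fun _ : ℕ => ℕ)).dense_iff]
      rintro _ ⟨x, n, rfl⟩ _
      obtain ⟨N', hN'M, hN'sub, hN'D⟩ := hD k (chain e x n) (by rw [he]; exact chain_mem e x n)
      rw [he] at hN'M
      obtain ⟨l, rfl⟩ := hN'M
      refine ⟨Function.update x n l, ?_, n + 1, ?_⟩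
      · rw [PiNat.mem_cylinder_iff]
        intro i hi
        exact Function.update_of_ne (by omega) _ _
      · have h1 : chain e (Function.update x n l) n = chain e x n :=
          chain_congr e _ _ n (fun i hi => Function.update_of_ne (by omega) _ _)
        simp only [chain, h1, Function.update_self]
        rw [if_pos hN'sub]
        exact hN'D
  obtain ⟨g, hg⟩ := exists_not_covered hκ _ hmeagre
  refine ⟨chain e g, chain_antitone e g, fun n => ?_, fun k => ?_⟩
  · rw [he]; exact chain_mem e g n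
  · have := hg k
    simpa using this

/-- A countable set closed under a countably valued operation. -/
theorem exists_countable_closure {Y : Type*} (Φ : Y → Set Y) (hΦ : ∀ y, (Φ y).Countable)
    (y0 : Y) : ∃ M : Set Y, M.Countable ∧ y0 ∈ M ∧ ∀ y ∈ M, Φ y ⊆ M := by
  let step : ℕ → Set Y := fun n => Nat.rec {y0} (fun _ S => ⋃ y ∈ S, Φ y) n
  have hstep : ∀ n, (step n).Countable := by
    intro n
    induction n with
    | zero => exact countable_singleton y0
    | succ n ih => exact ih.biUnion fun y _ => hΦ y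
  refine ⟨⋃ n, step n, countable_iUnion hstep, mem_iUnion.mpr ⟨0, rfl⟩, ?_⟩
  intro y hy z hz
  obtain ⟨n, hn⟩ := mem_iUnion.mp hy
  exact mem_iUnion.mpr ⟨n + 1, mem_biUnion hn hz⟩

/-- Independence of a family of pairs of sets on `N`. -/
def Indep {ι : Type} (A B : ι → Set ℕ) (N : Set ℕ) (F : Set ι) : Prop :=
  ∀ G H : Set ι, G.Finite → H.Finite → G ⊆ F → H ⊆ F → Disjoint G H →
    (N ∩ (⋂ i ∈ G, A i) ∩ (⋂ i ∈ H, B i)).Infinite

theorem exists_maximal_indep {ι : Type} (A B : ι → Set ℕ) (N : Set ℕ) (hN : N.Infinite) :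
    ∃ F, Maximal (Indep A B N) F := by
  apply zorn_subset {F | Indep A B N F}
  intro c hc hchain
  refine ⟨⋃₀ c, ?_, fun s hs => subset_sUnion_of_mem hs⟩
  intro G H hG hH hGc hHc hdisj
  by_cases hne : c.Nonempty
  · obtain ⟨s, hs, hGs⟩ := hchain.directedOn.exists_mem_subset_of_finite_of_subset_sUnion hne (hG.union hH)
      (union_subset hGc hHc)
    exact hc hs G H hG hH (subset_union_left.trans hGs) (subset_union_right.trans hGs) hdisj
  · rw [not_nonempty_iff_eq_empty] at hne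
    subst hne
    simp only [sUnion_empty, subset_empty_iff] at hGc hHc
    subst hGc hHc
    simpa using hN

/-- The key property of maximal independent families. -/
theorem maximal_indep_spec {ι : Type} (A B : ι → Set ℕ) (hAB : ∀ i, Disjoint (A i) (B i))
    (N : Set ℕ) (F : Set ι) (hF : Maximal (Indep A B N) F) (i : ι) :
    ∃ G H : Set ι, G.Finite ∧ H.Finite ∧ G ⊆ F ∧ H ⊆ F ∧ Disjoint G H ∧
      (((N ∩ (⋂ i ∈ G, A i) ∩ (⋂ i ∈ H, B i)) ∩ A i).Finite ∨
        ((N ∩ (⋂ i ∈ G, A i) ∩ (⋂ i ∈ H, B i)) ∩ B i).Finite) := by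
  by_cases hi : i ∈ F
  · refine ⟨{i}, ∅, finite_singleton i, finite_empty, by simpa using hi, empty_subset _,
      disjoint_empty _, Or.inr ?_⟩
    have : (N ∩ (⋂ j ∈ ({i} : Set ι), A j) ∩ (⋂ j ∈ (∅ : Set ι), B j)) ∩ B i = ∅ := by
      ext n
      simp only [mem_singleton_iff, iInter_iInter_eq_left, mem_empty_iff_false, iInter_of_empty,
        iInter_univ, inter_univ, mem_inter_iff, iff_false]
      rintro ⟨⟨_, h1⟩, h2⟩
      exact (disjoint_left.mp (hAB i)) h1 h2
    rw [this]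
    exact finite_empty
  · have hnot : ¬ Indep A B N (insert i F) := by
      intro h
      exact hi (hF.le_of_ge h (subset_insert i F) (mem_insert i F))
    unfold Indep at hnot
    push Not at hnot
    obtain ⟨G, H, hG, hH, hGF, hHF, hdisj, hfin⟩ := hnot
    refine ⟨G \ {i}, H \ {i}, hG.sdiff, hH.sdiff, ?_, ?_, ?_, ?_⟩
    · rintro x ⟨hx, hxi⟩
      rcases hGF hx with h | h
      · exact absurd h hxi
      · exact h
    · rintro x ⟨hx, hxi⟩
      rcases hHF hx with h | h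
      · exact absurd h hxi
      · exact h
    · exact hdisj.mono sdiff_subset sdiff_subset
    · by_cases hiG : i ∈ G
      · left
        apply hfin.subset
        rintro n ⟨⟨⟨h1, h2⟩, h3⟩, h4⟩
        have hiH : i ∉ H := fun h => (disjoint_left.mp hdisj) hiG h
        refine ⟨⟨h1, ?_⟩, ?_⟩
        · simp only [mem_iInter] at h2 ⊢
          intro j hj
          by_cases hji : j = i
          · rw [hji]; exact h4
          · exact h2 j ⟨hj, hji⟩
        · simp only [mem_iInter] at h3 ⊢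
          intro j hj
          exact h3 j ⟨hj, fun hji => hiH (by rw [← hji]; exact hj)⟩
      · right
        apply hfin.subset
        rintro n ⟨⟨⟨h1, h2⟩, h3⟩, h4⟩
        refine ⟨⟨h1, ?_⟩, ?_⟩
        · simp only [mem_iInter] at h2 ⊢
          intro j hj
          exact h2 j ⟨hj, fun hji => hiG (by rw [← hji]; exact hj)⟩
        · simp only [mem_iInter] at h3 ⊢
          intro j hj
          by_cases hji : j = i
          · rw [hji]; exact h4
          · exact h3 j ⟨hj, hji⟩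

/-- Either an uncountable independent family, or a set deciding all pairs. -/
theorem exists_indep_or_decided {ι P : Type} [Countable P]
    (hκ : Cardinal.mk (ι × P) < covMeagre) (A B : P → ι → Set ℕ)
    (hAB : ∀ p i, Disjoint (A p i) (B p i)) :
    (∃ (N : Set ℕ) (p : P) (F : Set ι), ¬ F.Countable ∧ Indep (A p) (B p) N F) ∨
    ∃ N : Set ℕ, N.Infinite ∧ ∀ p i, (N ∩ A p i).Finite ∨ (N ∩ B p i).Finite := by
  by_cases hcase : ∃ (N : Set ℕ) (p : P) (F : Set ι), ¬ F.Countable ∧ Indep (A p) (B p) N F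
  · exact Or.inl hcase
  right
  push Not at hcase
  have hcase' : ∀ (N : Set ℕ) (p : P) (F : Set ι), Indep (A p) (B p) N F → F.Countable := by
    intro N p F h
    by_contra hcon
    exact hcase N p F hcon h
  -- maximal independent families
  have hmax : ∀ (N : {N : Set ℕ // N.Infinite}) (p : P), ∃ F, Maximal (Indep (A p) (B p) N.1) F :=
    fun N p => exists_maximal_indep (A p) (B p) N.1 N.2
  choose F hF using hmax
  have hFinf : ∀ (N : {N : Set ℕ // N.Infinite}) (p : P) (G H : Set ι), G.Finite → H.Finite →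
      G ⊆ F N p → H ⊆ F N p → Disjoint G H →
      (N.1 ∩ (⋂ i ∈ G, A p i) ∩ (⋂ i ∈ H, B p i)).Infinite := fun N p => (hF N p).prop
  let Φ : {N : Set ℕ // N.Infinite} → Set {N : Set ℕ // N.Infinite} := fun N =>
    ⋃ p : P, {N' | ∃ G H : Set ι, G.Finite ∧ H.Finite ∧ G ⊆ F N p ∧ H ⊆ F N p ∧
      N'.1 = N.1 ∩ (⋂ i ∈ G, A p i) ∩ (⋂ i ∈ H, B p i)}
  have hΦ : ∀ N, (Φ N).Countable := by
    intro N
    apply countable_iUnion
    intro p
    have hFc : (F N p).Countable := hcase' N.1 p _ (hF N p).prop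
    have h1 : ({t : Set ι | t.Finite ∧ t ⊆ F N p}).Countable := countable_ofPred_finite_subset hFc
    have h2 := h1.prod h1
    have h3 := h2.image (fun GH : Set ι × Set ι =>
      N.1 ∩ (⋂ i ∈ GH.1, A p i) ∩ (⋂ i ∈ GH.2, B p i))
    have h4 := h3.preimage (f := (Subtype.val : {N : Set ℕ // N.Infinite} → Set ℕ))
      Subtype.val_injective
    apply h4.mono
    rintro N' ⟨G, H, hG, hH, hGF, hHF, heq⟩
    exact ⟨(G, H), ⟨⟨hG, hGF⟩, ⟨hH, hHF⟩⟩, heq.symm⟩
  obtain ⟨M, hMc, hM0, hMΦ⟩ := exists_countable_closure Φ hΦ ⟨univ, infinite_univ⟩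
  obtain ⟨N, hNanti, hNM, hND⟩ := exists_generic_chain hκ (Subtype.val '' M) (hMc.image _)
    ⟨univ, ⟨_, hM0, rfl⟩⟩
    (fun k : ι × P => {N' | (N' ∩ A k.2 k.1).Finite ∨ (N' ∩ B k.2 k.1).Finite}) (by
      rintro ⟨i, p⟩ _ ⟨N, hN, rfl⟩
      obtain ⟨G, H, hG, hH, hGF, hHF, hdisj, hdec⟩ :=
        maximal_indep_spec (A p) (B p) (hAB p) N.1 (F N p) (hF N p) i
      have hinf := hFinf N p G H hG hH hGF hHF hdisj
      refine ⟨N.1 ∩ (⋂ i ∈ G, A p i) ∩ (⋂ i ∈ H, B p i),
        ⟨⟨_, hinf⟩, hMΦ N hN (mem_iUnion.mpr ⟨p, G, H, hG, hH, hGF, hHF, rfl⟩), rfl⟩, ?_, hdec⟩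
      rintro n ⟨⟨h, _⟩, _⟩
      exact h)
  have hNinf : ∀ n, (N n).Infinite := by
    intro n
    obtain ⟨N', _, h⟩ := hNM n
    rw [← h]; exact N'.2
  -- a pseudointersection
  have hpick : ∀ n k : ℕ, ∃ m, k < m ∧ m ∈ N n := by
    intro n k
    obtain ⟨m, hm, hkm⟩ := (hNinf n).exists_gt k
    exact ⟨m, hkm, hm⟩
  choose pick hpick1 hpick2 using hpick
  let φ : ℕ → ℕ := fun n => Nat.rec (pick 0 0) (fun n m => pick (n + 1) m) n
  have hφs : ∀ n, φ (n + 1) = pick (n + 1) (φ n) := fun n => rfl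
  have hφ : StrictMono φ := strictMono_nat_of_lt_succ fun n => by
    rw [hφs]; exact hpick1 _ _
  have hφN : ∀ n, φ n ∈ N n := by
    intro n
    cases n with
    | zero => exact hpick2 0 0
    | succ n => rw [hφs]; exact hpick2 _ _
  refine ⟨range φ, infinite_range_of_injective hφ.injective, ?_⟩
  intro p i
  obtain ⟨n, hn⟩ := hND (i, p)
  have hsub : range φ ⊆ (φ '' (Iio n)) ∪ N n := by
    rintro _ ⟨m, rfl⟩
    by_cases hm : m < n
    · exact Or.inl ⟨m, hm, rfl⟩
    · exact Or.inr (hNanti (not_lt.mp hm) (hφN m))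
  have hfin : (φ '' (Iio n)).Finite := (finite_Iio n).image _
  rcases hn with hn | hn
  · left
    apply (hfin.union hn).subset
    rintro m ⟨hm1, hm2⟩
    rcases hsub hm1 with h | h
    · exact Or.inl h
    · exact Or.inr ⟨h, hm2⟩
  · right
    apply (hfin.union hn).subset
    rintro m ⟨hm1, hm2⟩
    rcases hsub hm1 with h | h
    · exact Or.inl h
    · exact Or.inr ⟨h, hm2⟩

end Pool.Agent.Lib.MP_d107a2_lc
end

section

open Set Filter Topology

namespace Pool.Agent.Lib.MP_d107a2_lc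

variable {𝕜 : Type} [RCLike 𝕜]

theorem cauchy_of_decided (q : ℕ → 𝕜) (hq : DenseRange q) (v : ℕ → 𝕜) (hv : ∀ n, ‖v n‖ ≤ 1)
    (N : Set ℕ) (hN : N.Infinite)
    (hdec : ∀ m k l : ℕ, 10 * (1 / ((m : ℝ) + 1)) ≤ ‖q l - q k‖ →
      (N ∩ {n | ‖v n - q k‖ < 1 / ((m : ℝ) + 1)}).Finite ∨
        (N ∩ {n | ‖v n - q l‖ < 1 / ((m : ℝ) + 1)}).Finite) :
    CauchySeq (fun n => v (Nat.nth (· ∈ N) n)) := by
  classical
  rw [Metric.cauchySeq_iff]
  intro ε hε
  obtain ⟨m, hm⟩ := exists_nat_one_div_lt (show (0 : ℝ) < ε / 12 by positivity)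
  have hcpt : IsCompact (Metric.closedBall (0 : 𝕜) 1) := isCompact_closedBall _ _
  have hr : (0 : ℝ) < 1 / ((m : ℝ) + 1) := by positivity
  obtain ⟨t, ht⟩ := hcpt.elim_finite_subcover (fun k : ℕ => Metric.ball (q k) (1 / ((m : ℝ) + 1)))
    (fun k => Metric.isOpen_ball) (by
      intro z _
      obtain ⟨k, hk⟩ := Metric.denseRange_iff.mp hq z _ hr
      exact mem_iUnion.mpr ⟨k, hk⟩)
  let A : ℕ → Set ℕ := fun k => {n | ‖v n - q k‖ < 1 / ((m : ℝ) + 1)}
  have hfin : (⋃ k ∈ t.filter (fun k => (N ∩ A k).Finite), (N ∩ A k)).Finite := by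
    apply (t.filter (fun k => (N ∩ A k).Finite)).finite_toSet.biUnion
    intro k hk
    exact (Finset.mem_filter.mp hk).2
  obtain ⟨B, hB⟩ := hfin.bddAbove
  have hmem : ∀ n, n ∈ N → B < n → ∃ k, (N ∩ A k).Infinite ∧ n ∈ A k := by
    intro n hn hBn
    have h2 : v n ∈ Metric.closedBall (0 : 𝕜) 1 := by simpa using hv n
    obtain ⟨k, hk, hk2⟩ := mem_iUnion₂.mp (ht h2)
    have hnk : n ∈ A k := by simpa [A, dist_eq_norm] using hk2
    refine ⟨k, ?_, hnk⟩
    intro hf
    have : n ≤ B := hB (mem_iUnion₂.mpr ⟨k, Finset.mem_filter.mpr ⟨hk, hf⟩, hn, hnk⟩)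
    omega
  refine ⟨B + 1, fun a ha b hb => ?_⟩
  have hge : ∀ n, n ≤ Nat.nth (· ∈ N) n := fun n => (Nat.nth_strictMono hN).id_le n
  obtain ⟨k, hk1, hk2⟩ := hmem (Nat.nth (· ∈ N) a) (Nat.nth_mem_of_infinite hN a)
    (by have := hge a; omega)
  obtain ⟨l, hl1, hl2⟩ := hmem (Nat.nth (· ∈ N) b) (Nat.nth_mem_of_infinite hN b)
    (by have := hge b; omega)
  have hnear : ‖q l - q k‖ < 10 * (1 / ((m : ℝ) + 1)) := by
    by_contra hcon
    rcases hdec m k l (not_lt.mp hcon) with h | h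
    · exact hk1 h
    · exact hl1 h
  rw [dist_eq_norm]
  have h1 : ‖v (Nat.nth (· ∈ N) a) - q k‖ < 1 / ((m : ℝ) + 1) := hk2
  have h2 : ‖v (Nat.nth (· ∈ N) b) - q l‖ < 1 / ((m : ℝ) + 1) := hl2
  calc ‖v (Nat.nth (· ∈ N) a) - v (Nat.nth (· ∈ N) b)‖
      = ‖(v (Nat.nth (· ∈ N) a) - q k) - (v (Nat.nth (· ∈ N) b) - q l) - (q l - q k)‖ := by
        congr 1; ring
    _ ≤ ‖(v (Nat.nth (· ∈ N) a) - q k) - (v (Nat.nth (· ∈ N) b) - q l)‖ + ‖q l - q k‖ :=
        norm_sub_le _ _
    _ ≤ ‖v (Nat.nth (· ∈ N) a) - q k‖ + ‖v (Nat.nth (· ∈ N) b) - q l‖ + ‖q l - q k‖ := by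
        have := norm_sub_le (v (Nat.nth (· ∈ N) a) - q k) (v (Nat.nth (· ∈ N) b) - q l)
        linarith
    _ < ε := by linarith

variable {X : Type*} [NormedAddCommGroup X] [NormedSpace 𝕜 X]

/-- Without an uncountable biorthogonal system, sequences in the dual ball have pointwise Cauchy
subsequences on any family of size `ℵ₁`, if the splitting number or `cov(M)` exceeds `ℵ₁`. -/
theorem exists_cauchy_subseq (hinv : Cardinal.aleph 1 < splitting ∨ Cardinal.aleph 1 < covMeagre)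
    (hno : ¬ HasUncountableBiorthogonal 𝕜 X) {ι : Type} (hι : Cardinal.mk ι = Cardinal.aleph 1)
    (x : ι → X) (hx : ∀ i, ‖x i‖ ≤ 1) (f : ℕ → (X →L[𝕜] 𝕜)) (hf : ∀ n, ‖f n‖ ≤ 1) :
    ∃ φ : ℕ → ℕ, StrictMono φ ∧ ∀ i, CauchySeq (fun n => f (φ n) (x i)) := by
  classical
  let q : ℕ → 𝕜 := TopologicalSpace.denseSeq 𝕜
  have hq : DenseRange q := TopologicalSpace.denseRange_denseSeq 𝕜
  let P : Type := {p : ℕ × ℕ × ℕ // 10 * (1 / ((p.1 : ℝ) + 1)) ≤ ‖q p.2.2 - q p.2.1‖}
  let A : P → ι → Set ℕ := fun p i => {n | ‖f n (x i) - q p.1.2.1‖ < 1 / ((p.1.1 : ℝ) + 1)}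
  let B : P → ι → Set ℕ := fun p i => {n | ‖f n (x i) - q p.1.2.2‖ < 1 / ((p.1.1 : ℝ) + 1)}
  have hAB : ∀ p i, Disjoint (A p i) (B p i) := by
    intro p i
    rw [Set.disjoint_left]
    intro n h1 h2
    have h1' : ‖f n (x i) - q p.1.2.1‖ < 1 / ((p.1.1 : ℝ) + 1) := h1
    have h2' : ‖f n (x i) - q p.1.2.2‖ < 1 / ((p.1.1 : ℝ) + 1) := h2
    have h3 := p.2
    have h4 : ‖q p.1.2.2 - q p.1.2.1‖ ≤ ‖f n (x i) - q p.1.2.1‖ + ‖f n (x i) - q p.1.2.2‖ := by
      calc ‖q p.1.2.2 - q p.1.2.1‖ = ‖(f n (x i) - q p.1.2.1) - (f n (x i) - q p.1.2.2)‖ := by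
            congr 1; ring
        _ ≤ _ := norm_sub_le _ _
    have h5 : (0 : ℝ) < 1 / ((p.1.1 : ℝ) + 1) := by positivity
    linarith
  have hmk : Cardinal.mk (ι × P) ≤ Cardinal.aleph 1 := by
    rw [Cardinal.mk_prod, Cardinal.lift_id, Cardinal.lift_id, hι]
    have hP : Cardinal.mk P ≤ Cardinal.aleph0 := Cardinal.mk_le_aleph0
    calc Cardinal.aleph 1 * Cardinal.mk P ≤ Cardinal.aleph 1 * Cardinal.aleph 1 :=
          mul_le_mul_right (hP.trans Cardinal.aleph0_lt_aleph_one.le) _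
      _ = Cardinal.aleph 1 := Cardinal.mul_eq_self (Cardinal.aleph0_le_aleph 1)
  have hv : ∀ n i, ‖f n (x i)‖ ≤ 1 := by
    intro n i
    calc ‖f n (x i)‖ ≤ ‖f n‖ * ‖x i‖ := (f n).le_opNorm _
      _ ≤ 1 * 1 := mul_le_mul (hf n) (hx i) (norm_nonneg _) zero_le_one
      _ = 1 := one_mul 1
  -- a set deciding all pairs
  have hdec : ∃ N : Set ℕ, N.Infinite ∧ ∀ p i, (N ∩ A p i).Finite ∨ (N ∩ B p i).Finite := by
    rcases hinv with hs | hc
    · obtain ⟨N, hN, hNS⟩ := exists_unsplit (lt_of_le_of_lt hmk hs)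
        (fun k : ι × P => A k.2 k.1)
      refine ⟨N, hN, fun p i => ?_⟩
      rcases hNS (i, p) with h | h
      · exact Or.inl h
      · right
        apply h.subset
        rintro n ⟨h1, h2⟩
        exact ⟨h1, fun h3 => (Set.disjoint_left.mp (hAB p i)) h3 h2⟩
    · rcases exists_indep_or_decided (lt_of_le_of_lt hmk hc) A B hAB with ⟨N, p, F, hF, hind⟩ | h
      · exfalso
        apply hno
        have hFu : Uncountable F := by
          rw [← not_countable_iff]
          intro h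
          exact hF (countable_coe_iff.mp h)
        have h5 : (0 : ℝ) < 1 / ((p.1.1 : ℝ) + 1) := by positivity
        apply exists_biorthogonal_of_l1 (𝕜 := 𝕜) (fun i : F => x i) (3 * (1 / ((p.1.1 : ℝ) + 1)) / 2)
          (by positivity)
        intro c
        apply l1_of_indep (fun i : F => x i) f hf (q p.1.2.1) (q p.1.2.2) _ h5 p.2
        intro G H hGH
        have hinf := hind ((↑) '' (G : Set F)) ((↑) '' (H : Set F))
          (G.finite_toSet.image _) (H.finite_toSet.image _)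
          (by rintro _ ⟨a, _, rfl⟩; exact a.2) (by rintro _ ⟨a, _, rfl⟩; exact a.2) (by
            rw [Set.disjoint_left]
            rintro _ ⟨a, ha, rfl⟩ ⟨b, hb, hab⟩
            have : b = a := Subtype.ext hab
            subst this
            exact (Finset.disjoint_left.mp hGH) ha hb)
        obtain ⟨n, ⟨_, hn1⟩, hn2⟩ := hinf.nonempty
        simp only [mem_iInter] at hn1 hn2
        exact ⟨n, fun i hi => hn1 i ⟨i, hi, rfl⟩, fun i hi => hn2 i ⟨i, hi, rfl⟩⟩
      · exact h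
  obtain ⟨N, hN, hNd⟩ := hdec
  refine ⟨Nat.nth (· ∈ N), Nat.nth_strictMono hN, fun i => ?_⟩
  exact cauchy_of_decided q hq (fun n => f n (x i)) (fun n => hv n i) N hN
    (fun m k l h => hNd ⟨(m, k, l), h⟩ i)

/-- PID, `ℵ₁ < 𝔟` and `ℵ₁ < max 𝔰 cov(M)` give uncountable biorthogonal systems in all
nonseparable Banach spaces. -/
theorem allSpaces [CompleteSpace X] (hPID : PID) (hb : Cardinal.aleph 1 < bounding)
    (hinv : Cardinal.aleph 1 < splitting ∨ Cardinal.aleph 1 < covMeagre)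
    (hX : ¬ TopologicalSpace.SeparableSpace X) : HasUncountableBiorthogonal 𝕜 X := by
  by_contra hno
  apply hno
  obtain ⟨ι, x, seg, hmk, hbd, hx⟩ := exists_recursive_choice
    (fun (C : Set X) (y : X) => ‖y‖ ≤ 1 ∧
      ∃ f : X →L[𝕜] 𝕜, ‖f‖ ≤ 1 ∧ (∀ c ∈ C, f c = 0) ∧ f y ≠ 0) (by
      intro C hC
      obtain ⟨f, hf1, hf2, hf3⟩ := exists_functional_of_countable (𝕜 := 𝕜) hX C hC
      have : ∃ y, f y ≠ 0 := by
        by_contra hcon
        push Not at hcon
        exact hf2 (ContinuousLinearMap.ext hcon)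
      obtain ⟨y, hy⟩ := this
      have hy0 : y ≠ 0 := by
        rintro rfl
        exact hy (map_zero f)
      have hn : ‖y‖ ≠ 0 := norm_ne_zero_iff.mpr hy0
      refine ⟨((‖y‖⁻¹ : ℝ) : 𝕜) • y, ?_, f, hf1, hf3, ?_⟩
      · rw [norm_smul]
        simp [hn]
      · rw [map_smul, smul_eq_mul]
        exact mul_ne_zero (by simpa using hy0) hy)
  have hclosed : IsClosed ((fun (u : X →L[𝕜] 𝕜) (i : ι) => u (x i)) '' {u | ‖u‖ ≤ 1}) := by
    have h1 : IsCompact ((fun (u : WeakDual 𝕜 X) (i : ι) => u (x i)) ''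
        (WeakDual.toStrongDual ⁻¹' Metric.closedBall (0 : StrongDual 𝕜 X) 1)) := by
      apply (WeakDual.isCompact_closedBall (0 : StrongDual 𝕜 X) 1).image
      exact continuous_pi fun i => WeakDual.eval_continuous (x i)
    have h2 : ((fun (u : WeakDual 𝕜 X) (i : ι) => u (x i)) ''
        (WeakDual.toStrongDual ⁻¹' Metric.closedBall (0 : StrongDual 𝕜 X) 1)) =
        ((fun (u : X →L[𝕜] 𝕜) (i : ι) => u (x i)) '' {u | ‖u‖ ≤ 1}) := by
      ext w
      constructor
      · rintro ⟨u, hu, rfl⟩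
        exact ⟨WeakDual.toStrongDual u, by simpa using hu, rfl⟩
      · rintro ⟨u, hu, rfl⟩
        exact ⟨StrongDual.toWeakDual u, by simpa using hu, rfl⟩
    rw [← h2]
    exact h1.isClosed
  apply main_core hPID (by rw [hmk]; exact hb) x {u | ‖u‖ ≤ 1}
  · intro v hv
    choose f hf hfv using hv
    obtain ⟨φ, hφ, hc⟩ := exists_cauchy_subseq hinv hno hmk x (fun i => (hx i).1) f hf
    choose w hw using fun i => cauchySeq_tendsto_of_complete (hc i)
    have hlim : Tendsto (v ∘ φ) atTop (𝓝 w) := by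
      rw [tendsto_pi_nhds]
      intro i
      have e : (fun n => (v ∘ φ) n i) = fun n => f (φ n) (x i) := by
        funext n
        simp only [Function.comp_apply, ← hfv]
      rw [e]
      exact hw i
    refine ⟨w, ?_, φ, hφ, hlim⟩
    apply hclosed.mem_of_tendsto hlim
    exact Eventually.of_forall fun n => ⟨f (φ n), hf _, hfv _⟩
  · intro C hC
    obtain ⟨ξ, hξ⟩ := hbd C hC
    obtain ⟨_, f, hf1, hf2, hf3⟩ := hx ξ
    refine ⟨f, hf1, 0, by simp, fun i hi => ?_, ξ, by simpa using hf3⟩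
    rw [hf2 (x i) ⟨i, hξ hi, rfl⟩]
    simp

end Pool.Agent.Lib.MP_d107a2_lc
end
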