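import Mathlib
import Pool.Agent.Lib.MP_d107a2_lc.AllSpaces
import Pool.Agent.Lib.MP_d107a2_lc.Nonsep

/-!
A family of fewer than continuum many pairs of disjoint sets of natural numbers without an infinite
independent sequence does not split all infinite sets. Consequently a nonseparable subset of a
Banach space without sequences equivalent to the basis of `ℓ₁` gives an uncountable biorthogonal
system, under PID and `ℵ₁ < 𝔟`.
-/

open Set Filter Topology

namespace Pool.Agent.Lib.MP_d107a2_lc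

section Tuples

/-- a pseudo-intersection of a decreasing sequence -/
theorem exists_pseudo (s : ℕ → Set ℕ) (hs : Antitone s) (hinf : ∀ n, (s n).Infinite) :
    ∃ D : Set ℕ, D.Infinite ∧ D ⊆ s 0 ∧ ∀ n, (D \ s n).Finite := by
  have hpick : ∀ n k : ℕ, ∃ m, k < m ∧ m ∈ s n := by
    intro n k
    obtain ⟨m, hm, hkm⟩ := (hinf n).exists_gt k
    exact ⟨m, hkm, hm⟩
  choose pick hpick1 hpick2 using hpick
  let φ : ℕ → ℕ := fun n => Nat.rec (pick 0 0) (fun n m => pick (n + 1) m) n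
  have hφs : ∀ n, φ (n + 1) = pick (n + 1) (φ n) := fun n => rfl
  have hφ : StrictMono φ := strictMono_nat_of_lt_succ fun n => by
    rw [hφs]; exact hpick1 _ _
  have hφN : ∀ n, φ n ∈ s n := by
    intro n
    cases n with
    | zero => exact hpick2 0 0
    | succ n => rw [hφs]; exact hpick2 _ _
  refine ⟨range φ, infinite_range_of_injective hφ.injective, ?_, fun n => ?_⟩
  · rintro _ ⟨m, rfl⟩
    exact hs (Nat.zero_le m) (hφN m)
  · apply ((finite_Iio n).image φ).subset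
    rintro _ ⟨⟨m, rfl⟩, hm⟩
    refine ⟨m, ?_, rfl⟩
    by_contra hcon
    exact hm (hs (not_lt.mp hcon) (hφN m))

/-- `i` splits all the sets of the tuple -/
def Splits {ι κ : Type} (A B : ι → Set ℕ) (i : ι) (M : κ → Set ℕ) : Prop :=
  ∀ j, (M j ∩ A i).Infinite ∧ (M j ∩ B i).Infinite

/-- hereditarily split tuples -/
def HS {ι κ : Type} (A B : ι → Set ℕ) (M : κ → Set ℕ) : Prop :=
  ∀ M' : κ → Set ℕ, (∀ j, M' j ⊆ M j) → (∀ j, (M' j).Infinite) → ∃ i, Splits A B i M'

theorem infinite_inter_of_almost {D S T : Set ℕ} (h : (D ∩ T).Infinite) (hf : (D \ S).Finite) :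
    (S ∩ T).Infinite := by
  intro hfin
  apply h
  apply (hfin.union hf).subset
  rintro n ⟨h1, h2⟩
  by_cases h3 : n ∈ S
  · exact Or.inl ⟨h3, h2⟩
  · exact Or.inr ⟨h1, h3⟩

/-- the extension step -/
theorem exists_extension {ι κ : Type} (hι : Cardinal.mk ι < Cardinal.continuum)
    (A B : ι → Set ℕ) (M : κ → Set ℕ) (hM : ∀ j, (M j).Infinite) (hHS : HS A B M) :
    ∃ (i : ι) (M0 M1 : κ → Set ℕ), (∀ j, M0 j ⊆ M j ∩ A i) ∧ (∀ j, M1 j ⊆ M j ∩ B i) ∧
      (∀ j, (M0 j).Infinite) ∧ (∀ j, (M1 j).Infinite) ∧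
      HS A B (Sum.elim M0 M1 : κ ⊕ κ → Set ℕ) := by
  by_contra hcon
  push Not at hcon
  let St : Type := {M' : κ → Set ℕ // (∀ j, M' j ⊆ M j) ∧ ∀ j, (M' j).Infinite}
  have hch : ∀ s : St, ∃ ch : Bool → St, (∀ b j, (ch b).1 j ⊆ s.1 j) ∧
      ∀ i, ¬ (Splits A B i (ch false).1 ∧ Splits A B i (ch true).1) := by
    rintro ⟨M', hM'1, hM'2⟩
    obtain ⟨i, hi⟩ := hHS M' hM'1 hM'2
    have h := hcon i (fun j => M' j ∩ A i) (fun j => M' j ∩ B i)
      (fun j => inter_subset_inter_left _ (hM'1 j)) (fun j => inter_subset_inter_left _ (hM'1 j))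
      (fun j => (hi j).1) (fun j => (hi j).2)
    unfold HS at h
    push Not at h
    obtain ⟨N, hN1, hN2, hN3⟩ := h
    have h0 : ∀ j, N (Sum.inl j) ⊆ M' j := fun j => (hN1 (Sum.inl j)).trans inter_subset_left
    have h1 : ∀ j, N (Sum.inr j) ⊆ M' j := fun j => (hN1 (Sum.inr j)).trans inter_subset_left
    refine ⟨fun b => if b then ⟨fun j => N (Sum.inr j), fun j => (h1 j).trans (hM'1 j),
      fun j => hN2 _⟩ else ⟨fun j => N (Sum.inl j), fun j => (h0 j).trans (hM'1 j),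
      fun j => hN2 _⟩, ?_, ?_⟩
    · intro b j
      cases b
      · exact h0 j
      · exact h1 j
    · rintro i' ⟨h2, h3⟩
      apply hN3 i'
      rintro (j | j)
      · exact h2 j
      · exact h3 j
  choose ch hch1 hch2 using hch
  let s0 : St := ⟨M, fun j => Subset.rfl, hM⟩
  let sq : (ℕ → Bool) → ℕ → St := fun r n => Nat.rec s0 (fun n s => ch s (r n)) n
  have hsq : ∀ r n, sq r (n + 1) = ch (sq r n) (r n) := fun r n => rfl
  have hsqc : ∀ r r' n, (∀ m < n, r m = r' m) → sq r n = sq r' n := by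
    intro r r' n
    induction n with
    | zero => intro _; rfl
    | succ n ih =>
      intro h
      rw [hsq, hsq, ih fun m hm => h m (by omega), h n (by omega)]
  have hanti : ∀ r j, Antitone fun n => (sq r n).1 j := by
    intro r j
    apply antitone_nat_of_succ_le
    intro n
    rw [hsq]
    exact hch1 _ _ _
  have hex : ∀ r : ℕ → Bool, ∃ i : ι, ∀ n, Splits A B i (sq r n).1 := by
    intro r
    have hD : ∀ j, ∃ D : Set ℕ, D.Infinite ∧ D ⊆ M j ∧ ∀ n, (D \ (sq r n).1 j).Finite :=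
      fun j => exists_pseudo (fun n => (sq r n).1 j) (hanti r j) (fun n => (sq r n).2.2 j)
    choose D hD1 hD2 hD3 using hD
    obtain ⟨i, hi⟩ := hHS D hD2 hD1
    exact ⟨i, fun n j => ⟨infinite_inter_of_almost (hi j).1 (hD3 j n),
      infinite_inter_of_almost (hi j).2 (hD3 j n)⟩⟩
  choose g hg using hex
  have hinj : Function.Injective g := by
    intro r r' hrr
    by_contra hne
    have hne' : ∃ n, r n ≠ r' n := by
      by_contra h
      push Not at h
      exact hne (funext h)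
    classical
    have h1 := Nat.find_spec hne'
    have h2 : ∀ m < Nat.find hne', r m = r' m := fun m hm => by
      simpa using Nat.find_min hne' hm
    obtain ⟨n, hn⟩ : ∃ n, n = Nat.find hne' := ⟨_, rfl⟩
    rw [← hn] at h1 h2
    have h3 := hg r (n + 1)
    have h4 := hg r' (n + 1)
    rw [hsq] at h3 h4
    rw [← hsqc r r' n h2, ← hrr] at h4
    rcases hb : r n with _ | _ <;> rcases hb' : r' n with _ | _ <;> rw [hb] at h1 h3 <;>
      rw [hb'] at h1 h4
    · exact h1 rfl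
    · exact hch2 _ _ ⟨h3, h4⟩
    · exact hch2 _ _ ⟨h4, h3⟩
    · exact h1 rfl
  have h5 := Cardinal.mk_le_of_injective hinj
  have h6 : Cardinal.mk (ℕ → Bool) = Cardinal.continuum := by simp
  rw [h6] at h5
  exact absurd hι (not_lt.mpr h5)

/-- the index sets of the tuples -/
def Idx : ℕ → Type
  | 0 => Unit
  | n + 1 => Idx n ⊕ Idx n

/-- the branches -/
def path (σ : ℕ → Bool) : (n : ℕ) → Idx n
  | 0 => ()
  | n + 1 => if σ n then Sum.inl (path σ n) else Sum.inr (path σ n)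

/-- A hereditarily split set gives an independent sequence. -/
theorem exists_indep_of_HS {ι : Type} (hι : Cardinal.mk ι < Cardinal.continuum)
    (A B : ι → Set ℕ) (M : Set ℕ) (hM : M.Infinite) (hHS : HS A B (fun _ : Unit => M)) :
    ∃ i : ℕ → ι, ∀ (σ : ℕ → Bool) (n : ℕ), ∃ N : Set ℕ, N.Infinite ∧
      ∀ m < n, N ⊆ if σ m then A (i m) else B (i m) := by
  let St : ℕ → Type := fun n => {M : Idx n → Set ℕ // (∀ j, (M j).Infinite) ∧ HS A B M}
  have hstep : ∀ n (s : St n), ∃ (i : ι) (t : St (n + 1)),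
      (∀ j : Idx n, t.1 (Sum.inl j) ⊆ s.1 j ∩ A i) ∧
      (∀ j : Idx n, t.1 (Sum.inr j) ⊆ s.1 j ∩ B i) := by
    rintro n ⟨M, hM1, hM2⟩
    obtain ⟨i, M0, M1, h1, h2, h3, h4, h5⟩ := exists_extension hι A B M hM1 hM2
    refine ⟨i, ⟨(Sum.elim M0 M1 : Idx n ⊕ Idx n → Set ℕ), ?_, h5⟩, h1, h2⟩
    rintro (j | j)
    · exact h3 j
    · exact h4 j
  choose nxt st hst1 hst2 using hstep
  let sq : (n : ℕ) → St n := fun n => Nat.rec (motive := St) ⟨fun _ => M, fun _ => hM, hHS⟩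
    (fun n s => st n s) n
  have hsq : ∀ n, sq (n + 1) = st n (sq n) := fun n => rfl
  refine ⟨fun n => nxt n (sq n), fun σ n => ⟨(sq n).1 (path σ n), (sq n).2.1 _, ?_⟩⟩
  have hdec : ∀ n, (sq (n + 1)).1 (path σ (n + 1)) ⊆ (sq n).1 (path σ n) ∩
      (if σ n then A (nxt n (sq n)) else B (nxt n (sq n))) := by
    intro n
    rw [hsq]
    rcases hb : σ n with _ | _
    · have e : path σ (n + 1) = Sum.inr (path σ n) := by simp [path, hb]
      rw [e]
      exact hst2 n (sq n) _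
    · have e : path σ (n + 1) = Sum.inl (path σ n) := by simp [path, hb]
      rw [e]
      exact hst1 n (sq n) _
  have hanti : Antitone fun n => (sq n).1 (path σ n) := by
    apply antitone_nat_of_succ_le
    intro n
    exact (hdec n).trans inter_subset_left
  intro m hm
  exact (hanti (Nat.succ_le_of_lt hm)).trans ((hdec m).trans inter_subset_right)

/-- One family of pairs. -/
theorem exists_decided {ι : Type} (hι : Cardinal.mk ι < Cardinal.continuum) (A B : ι → Set ℕ)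
    (hno : ¬ ∃ i : ℕ → ι, ∀ (σ : ℕ → Bool) (n : ℕ), ∃ N : Set ℕ, N.Infinite ∧
      ∀ m < n, N ⊆ if σ m then A (i m) else B (i m)) (M : Set ℕ) (hM : M.Infinite) :
    ∃ N : Set ℕ, N.Infinite ∧ N ⊆ M ∧ ∀ i, (N ∩ A i).Finite ∨ (N ∩ B i).Finite := by
  by_contra hcon
  apply hno
  apply exists_indep_of_HS hι A B M hM
  intro M' h1 h2
  by_contra h3
  apply hcon
  refine ⟨M' (), h2 (), h1 (), fun i => ?_⟩
  by_contra h4
  push Not at h4
  apply h3
  exact ⟨i, fun j => ⟨fun h => h4.1 h, fun h => h4.2 h⟩⟩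

/-- Countably many families of pairs. -/
theorem exists_decided_all {ι P : Type} [Countable P] (hι : Cardinal.mk ι < Cardinal.continuum)
    (A B : P → ι → Set ℕ)
    (hno : ∀ p, ¬ ∃ i : ℕ → ι, ∀ (σ : ℕ → Bool) (n : ℕ), ∃ N : Set ℕ, N.Infinite ∧
      ∀ m < n, N ⊆ if σ m then A p (i m) else B p (i m)) :
    ∃ N : Set ℕ, N.Infinite ∧ ∀ p i, (N ∩ A p i).Finite ∨ (N ∩ B p i).Finite := by
  rcases isEmpty_or_nonempty P with hP | hP
  · exact ⟨univ, infinite_univ, fun p => (hP.false p).elim⟩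
  obtain ⟨e, he⟩ := exists_surjective_nat P
  let St : Type := {M : Set ℕ // M.Infinite}
  have hstep : ∀ (n : ℕ) (s : St), ∃ t : St, t.1 ⊆ s.1 ∧
      ∀ i, (t.1 ∩ A (e n) i).Finite ∨ (t.1 ∩ B (e n) i).Finite := by
    rintro n ⟨M, hM⟩
    obtain ⟨N, h1, h2, h3⟩ := exists_decided hι (A (e n)) (B (e n)) (hno (e n)) M hM
    exact ⟨⟨N, h1⟩, h2, h3⟩
  choose st hst1 hst2 using hstep
  let sq : ℕ → St := fun n => Nat.rec ⟨univ, infinite_univ⟩ (fun n s => st n s) n
  have hsq : ∀ n, sq (n + 1) = st n (sq n) := fun n => rfl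
  obtain ⟨D, hD1, _, hD3⟩ := exists_pseudo (fun n => (sq n).1)
    (antitone_nat_of_succ_le fun n => by rw [hsq]; exact hst1 _ _) (fun n => (sq n).2)
  refine ⟨D, hD1, fun p i => ?_⟩
  obtain ⟨n, rfl⟩ := he p
  have h1 : (D \ (st n (sq n)).1).Finite := hD3 (n + 1)
  rcases hst2 n (sq n) i with h | h
  · left
    by_contra hcon
    exact infinite_inter_of_almost hcon h1 h
  · right
    by_contra hcon
    exact infinite_inter_of_almost hcon h1 h

end Tuples

theorem bounding_le_continuum : bounding ≤ Cardinal.continuum := by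
  have h1 : bounding ≤ Cardinal.mk (univ : Set (ℕ → ℕ)) := by
    apply csInf_le'
    refine ⟨univ, rfl, ?_⟩
    rintro ⟨g, hg⟩
    have h := hg (fun n => g n + 1) (mem_univ _)
    unfold EvLe at h
    obtain ⟨n, hn⟩ := h.exists
    exact absurd hn (by simp)
  rw [Cardinal.mk_univ] at h1
  simpa using h1

section Banach

variable {𝕜 : Type} [RCLike 𝕜] {X : Type*} [NormedAddCommGroup X] [NormedSpace 𝕜 X]

/-- Sequences in the dual ball have pointwise Cauchy subsequences on families of fewer than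
continuum many vectors without sequences equivalent to the basis of `ℓ₁`. -/
theorem exists_cauchy_subseq_tame {ι : Type} (hι : Cardinal.mk ι < Cardinal.continuum)
    (x : ι → X) (hx : ∀ i, ‖x i‖ ≤ 1)
    (hl : ∀ (i : ℕ → ι) (δ : ℝ), 0 < δ → ∃ c : ℕ →₀ 𝕜,
      ‖Finsupp.linearCombination 𝕜 (fun n => x (i n)) c‖ < δ * ∑ n ∈ c.support, ‖c n‖)
    (f : ℕ → (X →L[𝕜] 𝕜)) (hf : ∀ n, ‖f n‖ ≤ 1) :
    ∃ φ : ℕ → ℕ, StrictMono φ ∧ ∀ i, CauchySeq (fun n => f (φ n) (x i)) := by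
  classical
  let q : ℕ → 𝕜 := TopologicalSpace.denseSeq 𝕜
  have hq : DenseRange q := TopologicalSpace.denseRange_denseSeq 𝕜
  let P : Type := {p : ℕ × ℕ × ℕ // 10 * (1 / ((p.1 : ℝ) + 1)) ≤ ‖q p.2.2 - q p.2.1‖}
  let A : P → ι → Set ℕ := fun p i => {n | ‖f n (x i) - q p.1.2.1‖ < 1 / ((p.1.1 : ℝ) + 1)}
  let B : P → ι → Set ℕ := fun p i => {n | ‖f n (x i) - q p.1.2.2‖ < 1 / ((p.1.1 : ℝ) + 1)}
  have hv : ∀ n i, ‖f n (x i)‖ ≤ 1 := by
    intro n i
    calc ‖f n (x i)‖ ≤ ‖f n‖ * ‖x i‖ := (f n).le_opNorm _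
      _ ≤ 1 * 1 := mul_le_mul (hf n) (hx i) (norm_nonneg _) zero_le_one
      _ = 1 := one_mul 1
  obtain ⟨N, hN, hNd⟩ := exists_decided_all hι A B (by
    rintro p ⟨i, hi⟩
    have h5 : (0 : ℝ) < 1 / ((p.1.1 : ℝ) + 1) := by positivity
    obtain ⟨c, hc⟩ := hl i (3 * (1 / ((p.1.1 : ℝ) + 1)) / 2) (by positivity)
    have := l1_of_indep (fun n : ℕ => x (i n)) f hf (q p.1.2.1) (q p.1.2.2) _ h5 p.2 (by
      intro G H hGH
      obtain ⟨b, hb⟩ := (G ∪ H).bddAbove
      obtain ⟨N, hN, hNs⟩ := hi (fun m => decide (m ∈ G)) (b + 1)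
      obtain ⟨n, hn⟩ := hN.nonempty
      refine ⟨n, fun m hm => ?_, fun m hm => ?_⟩
      · have h6 := hNs m (Nat.lt_succ_of_le (hb (Finset.mem_coe.mpr
          (Finset.mem_union_left _ hm)))) hn
        simpa [hm, A] using h6
      · have h6 := hNs m (Nat.lt_succ_of_le (hb (Finset.mem_coe.mpr
          (Finset.mem_union_right _ hm)))) hn
        have hmG : m ∉ G := fun h => (Finset.disjoint_left.mp hGH) h hm
        simpa [hmG, B] using h6) c
    linarith)
  refine ⟨Nat.nth (· ∈ N), Nat.nth_strictMono hN, fun i => ?_⟩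
  exact cauchy_of_decided q hq (fun n => f n (x i)) (fun n => hv n i) N hN
    (fun m k l h => hNd ⟨(m, k, l), h⟩ i)

theorem exists_functional_of_notMem (M : Submodule 𝕜 X) (hM : IsClosed (M : Set X)) (y : X)
    (hy : y ∉ M) : ∃ f : X →L[𝕜] 𝕜, ‖f‖ ≤ 1 ∧ f y ≠ 0 ∧ ∀ x ∈ M, f x = 0 := by
  obtain ⟨f, hf1, hf2⟩ : ∃ f : X →L[𝕜] 𝕜, f y ≠ 0 ∧ ∀ x ∈ M, f x = 0 := by
    have hclosed := hM
    have hq : (Submodule.Quotient.mk y : X ⧸ M) ≠ 0 := by
      intro h
      exact hy ((Submodule.Quotient.mk_eq_zero M).mp h)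
    obtain ⟨g, hg1, hg2⟩ := exists_dual_vector 𝕜 (Submodule.Quotient.mk y : X ⧸ M)
      (by simpa using hq)
    refine ⟨g.comp M.mkQL, ?_, ?_⟩
    · simp only [ContinuousLinearMap.comp_apply]
      change g (Submodule.Quotient.mk y : X ⧸ M) ≠ 0
      rw [hg2]
      simpa using hq
    · intro x hx
      simp only [ContinuousLinearMap.comp_apply]
      change g (Submodule.Quotient.mk x : X ⧸ M) = 0
      rw [(Submodule.Quotient.mk_eq_zero M).mpr hx, map_zero]
  have hf0 : f ≠ 0 := by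
    rintro rfl
    exact hf1 rfl
  have hn : ‖f‖ ≠ 0 := norm_ne_zero_iff.mpr hf0
  refine ⟨((‖f‖⁻¹ : ℝ) : 𝕜) • f, ?_, ?_, fun x hx => by simp [hf2 x hx]⟩
  · rw [norm_smul]
    simp [hn]
  · simp only [smul_apply, smul_eq_mul]
    exact mul_ne_zero (by simpa using hf0) hf1

/-- The restrictions of the vectors to a set of functionals. -/
noncomputable def res (K : Set (WeakDual 𝕜 X)) : X →ₗ[𝕜] C(K, 𝕜) where
  toFun x := ⟨fun u => u.1 x, (WeakDual.eval_continuous x).comp continuous_subtype_val⟩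
  map_add' x y := by ext u; simp
  map_smul' c x := by ext u; simp

theorem res_apply (K : Set (WeakDual 𝕜 X)) (x : X) (u : K) : res K x u = u.1 x := rfl

/-- The general theorem: a weak-star compact set `K` and a set `F` of vectors which is tame
on `K`. -/
theorem tame_compact [CompleteSpace X] (hPID : PID) (hb : Cardinal.aleph 1 < bounding)
    (K : Set (WeakDual 𝕜 X)) (hK : IsCompact K) (F : Set X)
    (hsep : ∀ C ⊆ F, C.Countable →
      ∃ u ∈ K, ∃ v ∈ K, (∀ x ∈ C, u x = v x) ∧ ∃ y ∈ F, u y ≠ v y)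
    (hl : ∀ x : ℕ → X, (∀ n, x n ∈ F) → (∃ R : ℝ, ∀ n, ∀ u ∈ K, ‖u (x n)‖ ≤ R) →
      ∀ δ : ℝ, 0 < δ → ∃ c : ℕ →₀ 𝕜, ∀ u ∈ K,
        ‖u (Finsupp.linearCombination 𝕜 x c)‖ < δ * ∑ n ∈ c.support, ‖c n‖) :
    HasUncountableBiorthogonal 𝕜 X := by
  have hKc : CompactSpace K := isCompact_iff_compactSpace.mp hK
  have hKn : Nonempty K := by
    obtain ⟨u, hu, _⟩ := hsep ∅ (empty_subset _) countable_empty
    exact ⟨⟨u, hu⟩⟩
  -- a bounded part
  obtain ⟨R, hR⟩ : ∃ R : ℕ, ∀ C ⊆ F ∩ {y | ‖res K y‖ ≤ R}, C.Countable →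
      ∃ u ∈ K, ∃ v ∈ K, (∀ x ∈ C, u x = v x) ∧ ∃ y ∈ F ∩ {y | ‖res K y‖ ≤ R}, u y ≠ v y := by
    by_contra hcon
    push Not at hcon
    choose C hCF hC hCe using hcon
    obtain ⟨u, hu, v, hv, heq, y, hy, hne⟩ := hsep (⋃ n, C n)
      (iUnion_subset fun n => (hCF n).trans inter_subset_left) (countable_iUnion hC)
    obtain ⟨R, hR⟩ := exists_nat_ge ‖res K y‖
    exact hne (hCe R u hu v hv (fun x hx => heq x (mem_iUnion.mpr ⟨R, hx⟩)) y ⟨hy, hR⟩)
  have hR0 : (0 : ℝ) < (R : ℝ) + 1 := by positivity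
  obtain ⟨ι, x, seg, hmk, hbd, hx⟩ := exists_recursive_choice
    (fun (C : Set X) (y : X) => y ∈ F ∩ {y | ‖res K y‖ ≤ R} ∧
      ∃ u ∈ K, ∃ v ∈ K, (∀ c ∈ C ∩ (F ∩ {y | ‖res K y‖ ≤ R}), u c = v c) ∧ u y ≠ v y) (by
      intro C hC
      obtain ⟨u, hu, v, hv, heq, y, hy, hne⟩ := hR (C ∩ (F ∩ {y | ‖res K y‖ ≤ R}))
        inter_subset_right (hC.mono inter_subset_left)
      exact ⟨y, hy, u, hu, v, hv, heq, hne⟩)
  let s : 𝕜 := ((((R : ℝ) + 1)⁻¹ : ℝ) : 𝕜)
  have hs0 : s ≠ 0 := by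
    simp only [s]
    rw [Ne, RCLike.ofReal_eq_zero]
    positivity
  have hsn : ‖s‖ = ((R : ℝ) + 1)⁻¹ := by
    simp only [s]
    rw [RCLike.norm_ofReal, abs_of_pos (by positivity)]
  let x' : ι → X := fun i => s • x i
  have hx'1 : ∀ i, ‖res K (x' i)‖ ≤ 1 := by
    intro i
    have h1 : ‖res K (x i)‖ ≤ R := (hx i).1.2
    simp only [x', map_smul, norm_smul]
    rw [hsn, inv_mul_le_iff₀ hR0]
    linarith
  have hx'2 : ∀ (g : X →L[𝕜] 𝕜) i, g (x' i) = s * g (x i) := by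
    intro g i
    simp [x']
  have hιc : Cardinal.mk ι < Cardinal.continuum := by
    rw [hmk]
    exact hb.trans_le bounding_le_continuum
  have hl' : ∀ (i : ℕ → ι) (δ : ℝ), 0 < δ → ∃ c : ℕ →₀ 𝕜,
      ‖Finsupp.linearCombination 𝕜 (fun n => res K (x' (i n))) c‖ <
        δ * ∑ n ∈ c.support, ‖c n‖ := by
    intro i δ hδ
    obtain ⟨c, hc⟩ := hl (fun n => x (i n)) (fun n => (hx (i n)).1.1)
      ⟨R, fun n u hu => ((res K (x (i n))).norm_coe_le_norm ⟨u, hu⟩).trans (hx (i n)).1.2⟩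
      (δ * ((R : ℝ) + 1)) (by positivity)
    refine ⟨c, ?_⟩
    have e : Finsupp.linearCombination 𝕜 (fun n => res K (x' (i n))) c =
        s • res K (Finsupp.linearCombination 𝕜 (fun n => x (i n)) c) := by
      simp only [Finsupp.linearCombination_apply, Finsupp.sum, Finset.smul_sum, x', map_smul,
        map_sum]
      exact Finset.sum_congr rfl fun n _ => smul_comm _ _ _
    rw [e, norm_smul, hsn, inv_mul_lt_iff₀ hR0]
    have h2 : ‖res K (Finsupp.linearCombination 𝕜 (fun n => x (i n)) c)‖ <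
        δ * ((R : ℝ) + 1) * ∑ n ∈ c.support, ‖c n‖ := by
      rw [ContinuousMap.norm_lt_iff_of_nonempty]
      intro u
      exact hc u.1 u.2
    calc _ < _ := h2
      _ = _ := by ring
  have hclosed : IsClosed ((fun (u : X →L[𝕜] 𝕜) (i : ι) => u (x' i)) ''
      (WeakDual.toStrongDual '' K)) := by
    rw [image_image]
    apply IsCompact.isClosed
    apply hK.image
    exact continuous_pi fun i => WeakDual.eval_continuous (x' i)
  apply main_core hPID (by rw [hmk]; exact hb) x' (WeakDual.toStrongDual '' K)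
  · intro v hv
    have hv' : ∀ n, ∃ u : K, ∀ i, u.1 (x' i) = v n i := by
      intro n
      obtain ⟨_, ⟨u, hu, rfl⟩, he⟩ := hv n
      exact ⟨⟨u, hu⟩, fun i => congrFun he i⟩
    choose f hf using hv'
    obtain ⟨φ, hφ, hc⟩ := exists_cauchy_subseq_tame hιc (fun i => res K (x' i)) hx'1 hl'
      (fun n => ContinuousMap.evalCLM 𝕜 (f n)) (by
        intro n
        apply ContinuousLinearMap.opNorm_le_bound _ zero_le_one
        intro g
        rw [one_mul]
        exact g.norm_coe_le_norm (f n))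
    choose w hw using fun i => cauchySeq_tendsto_of_complete (hc i)
    have hlim : Tendsto (v ∘ φ) atTop (𝓝 w) := by
      rw [tendsto_pi_nhds]
      intro i
      have e : (fun n => (v ∘ φ) n i) =
          fun n => ContinuousMap.evalCLM 𝕜 (f (φ n)) (res K (x' i)) := by
        funext n
        exact (hf (φ n) i).symm
      rw [e]
      exact hw i
    refine ⟨w, ?_, φ, hφ, hlim⟩
    apply hclosed.mem_of_tendsto hlim
    exact Eventually.of_forall fun n => hv (φ n)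
  · intro C hC
    obtain ⟨ξ, hξ⟩ := hbd C hC
    obtain ⟨_, u, hu, v, hv, heq, hne⟩ := hx ξ
    refine ⟨WeakDual.toStrongDual u, ⟨u, hu, rfl⟩, WeakDual.toStrongDual v, ⟨v, hv, rfl⟩,
      fun i hi => ?_, ξ, ?_⟩
    · rw [hx'2, hx'2]
      congr 1
      exact heq (x i) ⟨⟨i, hξ hi, rfl⟩, (hx i).1⟩
    · rw [hx'2, hx'2]
      intro h
      exact hne (mul_left_cancel₀ hs0 h)

/-- A nonseparable set without sequences equivalent to the basis of `ℓ₁`. -/
theorem tame_main [CompleteSpace X] (hPID : PID) (hb : Cardinal.aleph 1 < bounding)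
    (F : Set X) (hF : ¬ TopologicalSpace.IsSeparable F)
    (hl : ∀ x : ℕ → X, (∀ n, x n ∈ F) → (∃ R : ℝ, ∀ n, ‖x n‖ ≤ R) → ∀ δ : ℝ, 0 < δ →
      ∃ c : ℕ →₀ 𝕜, ‖Finsupp.linearCombination 𝕜 x c‖ < δ * ∑ n ∈ c.support, ‖c n‖) :
    HasUncountableBiorthogonal 𝕜 X := by
  apply tame_compact hPID hb
    (WeakDual.toStrongDual ⁻¹' Metric.closedBall (0 : StrongDual 𝕜 X) 1)
    (WeakDual.isCompact_closedBall (0 : StrongDual 𝕜 X) 1) F
  · intro C hCF hC
    let M : Submodule 𝕜 X := (Submodule.span 𝕜 C).topologicalClosure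
    have hMsep : TopologicalSpace.IsSeparable (M : Set X) := by
      have h1 : TopologicalSpace.IsSeparable (Submodule.span 𝕜 C : Set X) :=
        hC.isSeparable.span
      exact h1.closure
    obtain ⟨y, hy, hyM⟩ : ∃ y ∈ F, y ∉ M := by
      by_contra hcon
      push Not at hcon
      exact hF (hMsep.mono hcon)
    obtain ⟨f, hf1, hf2, hf3⟩ := exists_functional_of_notMem M
      (Submodule.isClosed_topologicalClosure _) y hyM
    refine ⟨StrongDual.toWeakDual f, by simpa using hf1, 0, by simp, fun c hc => ?_, y, hy, ?_⟩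
    · exact hf3 c (Submodule.le_topologicalClosure _ (Submodule.subset_span hc))
    · exact hf2
  · intro x hx hxR δ hδ
    obtain ⟨R, hR⟩ := hxR
    obtain ⟨c, hc⟩ := hl x hx ⟨max R 0, fun n => by
      apply NormedSpace.norm_le_dual_bound 𝕜 (x n) (le_max_right R 0)
      intro f
      by_cases hf : ‖f‖ = 0
      · rw [norm_eq_zero.mp hf]
        simp
      have h1 := hR n (StrongDual.toWeakDual (((‖f‖⁻¹ : ℝ) : 𝕜) • f)) (by
        simp [norm_smul, hf])
      have h2 : ‖((‖f‖⁻¹ : ℝ) : 𝕜) * f (x n)‖ ≤ R := h1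
      rw [norm_mul, RCLike.norm_ofReal, abs_of_nonneg (by positivity),
        inv_mul_le_iff₀ (lt_of_le_of_ne (norm_nonneg f) (Ne.symm hf))] at h2
      rw [mul_comm]
      exact h2.trans (mul_le_mul_of_nonneg_left (le_max_left R 0) (norm_nonneg f))⟩ δ hδ
    refine ⟨c, fun u hu => ?_⟩
    have h1 : ‖WeakDual.toStrongDual u‖ ≤ 1 := by simpa using hu
    calc ‖u (Finsupp.linearCombination 𝕜 x c)‖
        = ‖WeakDual.toStrongDual u (Finsupp.linearCombination 𝕜 x c)‖ := rfl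
      _ ≤ ‖WeakDual.toStrongDual u‖ * ‖Finsupp.linearCombination 𝕜 x c‖ :=
        ContinuousLinearMap.le_opNorm _ _
      _ ≤ 1 * ‖Finsupp.linearCombination 𝕜 x c‖ := by gcongr
      _ < _ := by rw [one_mul]; exact hc

end Banach

end Pool.Agent.Lib.MP_d107a2_lc
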